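import Pool.Agent.Lib.MP_78c6b1_al.Ops

/-! All large abundances occur. -/

set_option autoImplicit false
set_option linter.unusedSectionVars false

namespace Pool.Agent.Lib.MP_78c6b1_al

open Finset

variable {F : Type} [Field F] [Fintype F] [DecidableEq F]

variable {A0 A1 g W R d t : ℕ}

lemma Real.lower (h : Real F A0 A1 g W R d t) : Fintype.card F ^ (2 * (d + 1)) ≤ A0 := by
  obtain ⟨Λ, _, _, _, w, Des, T, A, -, h2, -, -, -, h5, -⟩ := h
  obtain ⟨δ, hδ⟩ := h5 0 (Nat.zero_le _)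
  simp only [mul_zero, add_zero] at hδ
  rw [← hδ]
  refine le_trans (le_of_eq ?_) (single_le_sum (f := fun l => A.low δ l ^ 2)
    (fun _ _ => Nat.zero_le _) (a := 0) (by simp))
  show _ = A.low δ 0 ^ 2
  rw [Frame.low, map_zero, map_zero, kc_of_mem _ _ (Submodule.zero_mem _), kz_zero, h2]
  ring

lemma Real.privs (h : Real F A0 A1 g W R d t) (n : ℕ) :
    Real F (Fintype.card F ^ (2 * n) * A0) A1 (Fintype.card F ^ (2 * n) * g) W R (d + n) t := by
  induction n with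
  | zero => simpa using h
  | succ n ih =>
    have := ih.priv
    convert this using 1 <;> ring

lemma Real.vars (h : Real F A0 A1 g W R d t) (ρ : ℕ) (hρ : Fintype.card F - 1 ≤ ρ) (n : ℕ) :
    ∃ A1', Real F ((Fintype.card F ^ (2 * ρ) + (Fintype.card F - 1)) ^ n * A0) A1'
      ((Fintype.card F ^ (2 * ρ) + (Fintype.card F - 1)) ^ n * g) W (Fintype.card F ^ n * R)
      (d + n * ρ) (t + n) := by
  induction n with
  | zero => exact ⟨A1, by simpa using h⟩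
  | succ n ih =>
    obtain ⟨A1', h'⟩ := ih
    obtain ⟨A1'', h''⟩ := h'.var ρ hρ
    refine ⟨A1'', ?_⟩
    convert h'' using 1 <;> ring

lemma Real.level (h : Real F A0 A1 1 W R d t) (ρ : ℕ) (hρ : Fintype.card F - 1 ≤ ρ) (n π : ℕ)
    (Φ : ℕ) (hΦ : Φ = Fintype.card F ^ (2 * π) *
      (Fintype.card F ^ (2 * ρ) + (Fintype.card F - 1)) ^ n) :
    ∃ A1', Fintype.card F ^ (2 * π) * A1' ≤ Φ * A0 ∧
      Real F (Φ * A0) A1' Φ W (Fintype.card F ^ n * R) (d + n * ρ + π) (t + n) := by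
  obtain ⟨A1', h'⟩ := h.vars ρ hρ n
  refine ⟨A1', ?_, ?_⟩
  · rw [hΦ, mul_assoc]
    exact Nat.mul_le_mul_left _ h'.le
  · have := h'.privs π
    rw [hΦ]
    convert this using 1 <;> ring

/-- standard states -/
def St (F : Type) [Field F] [Fintype F] [DecidableEq F] (c L τ : ℕ) : Prop :=
  ∃ W d t A1, Real F τ A1 1 W (Fintype.card F ^ (8 * Fintype.card F + 3 * L)) d t ∧
    (L + 2) * τ ≤ c * (L + 1) * W ∧ t ≤ d + 1 ∧ L ≤ d

lemma st_zero : ∃ c τ, St F c 0 τ := by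
  have hq : 2 ≤ Fintype.card F := Fintype.one_lt_card
  obtain ⟨A1, h⟩ := real_init (F := F)
  obtain ⟨A1', h'⟩ := h.vars (Fintype.card F - 1) le_rfl (8 * Fintype.card F)
  obtain ⟨A1'', h''⟩ := h'.ctrl (by simp)
  generalize Fintype.card F ^ (2 * (Fintype.card F - 1)) *
    ((Fintype.card F ^ (2 * (Fintype.card F - 1)) + (Fintype.card F - 1)) ^ (8 * Fintype.card F) *
      Fintype.card F ^ 2) + (Fintype.card F - 1) * A1' = τ at h''
  refine ⟨2 * τ, τ, _, _, _, A1'', by simpa using h'', ?_, ?_, Nat.zero_le _⟩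
  · simp only [zero_add, mul_one]
    exact Nat.le_mul_of_pos_right _ (by positivity)
  · obtain ⟨k, hk⟩ := Nat.exists_eq_add_of_le hq
    rw [hk]
    have : 2 + k - 1 = k + 1 := by omega
    rw [this]
    nlinarith

lemma phi_le (q ρ : ℕ) (hq : 2 ≤ q) (hρ : 1 ≤ ρ) : q ^ (2 * ρ) + (q - 1) ≤ q ^ (2 * ρ + 1) := by
  have h1 : q ≤ q ^ (2 * ρ) := by
    calc q = q ^ 1 := (pow_one q).symm
      _ ≤ _ := Nat.pow_le_pow_right (by omega) (by omega)
  rw [pow_succ]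
  have : q ^ (2 * ρ) * 2 ≤ q ^ (2 * ρ) * q := Nat.mul_le_mul_left _ hq
  omega

lemma st_step {c L τ : ℕ} (h : St F c L τ) :
    ∃ τ', St F c (L + 1) τ' ∧ τ' ≤ Fintype.card F ^ (2 * (L + 4 * Fintype.card F + 2)) * τ := by
  have hq : 2 ≤ Fintype.card F := Fintype.one_lt_card
  set q := Fintype.card F with hqdef
  obtain ⟨W, d, t, A1, h, hc, ht, hL⟩ := h
  obtain ⟨A1', hA, h'⟩ := h.level (q - 1) le_rfl 3 (L + 1) _ rfl
  rw [← hqdef] at hA h'
  set Φ := q ^ (2 * (L + 1)) * (q ^ (2 * (q - 1)) + (q - 1)) ^ 3 with hΦ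
  set Q := q ^ (2 * (q - 1)) with hQ
  have hφ : Q + (q - 1) ≤ q ^ (2 * (q - 1) + 1) := phi_le q (q - 1) hq (by omega)
  have hQΦ : Q * Φ ≤ q ^ (8 * q + 2 * L + 2) := by
    calc Q * Φ ≤ Q * (q ^ (2 * (L + 1)) * (q ^ (2 * (q - 1) + 1)) ^ 3) :=
          Nat.mul_le_mul_left _ (Nat.mul_le_mul_left _ (Nat.pow_le_pow_left hφ 3))
      _ = q ^ (2 * (q - 1) + 2 * (L + 1) + (2 * (q - 1) + 1) * 3) := by
          rw [hQ, ← pow_mul, ← pow_add, ← pow_add, add_assoc]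
      _ ≤ _ := Nat.pow_le_pow_right (by omega) (by omega)
  have hR : q ^ 3 * q ^ (8 * q + 3 * L) = q ^ (8 * q + 3 * (L + 1)) := by ring
  rw [hR] at h'
  obtain ⟨A1'', h''⟩ := h'.ctrl (by
    rw [← hqdef]
    exact hQΦ.trans ((Nat.pow_le_pow_right (by omega) (by omega)).trans (Nat.le_succ _)))
  rw [← hqdef, ← hQ] at h''
  have hqQ : q - 1 ≤ Q := by
    calc q - 1 ≤ q ^ 1 := by simp
      _ ≤ _ := Nat.pow_le_pow_right (by omega) (by omega)
  have hP : (L + 2) ^ 2 ≤ q ^ (2 * (L + 1)) := by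
    rw [mul_comm, pow_mul]
    refine Nat.pow_le_pow_left ?_ 2
    calc L + 2 ≤ 2 ^ (L + 1) := Nat.lt_two_pow_self
      _ ≤ _ := Nat.pow_le_pow_left hq _
  have hA2 : (L + 1) * (L + 3) * A1' ≤ Φ * τ :=
    le_trans (Nat.mul_le_mul_right _ (le_trans (by nlinarith) hP)) hA
  refine ⟨_, ⟨_, _, _, A1'', h'', ?_, by omega, by omega⟩, ?_⟩
  · apply Nat.le_of_mul_le_mul_left _ (Nat.succ_pos L)
    calc (L + 1) * ((L + 1 + 2) * (Q * (Φ * τ) + (q - 1) * A1'))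
        = (L + 1) * (L + 3) * (Q * (Φ * τ)) + (q - 1) * ((L + 1) * (L + 3) * A1') := by ring
      _ ≤ (L + 1) * (L + 3) * (Q * (Φ * τ)) + Q * (Φ * τ) :=
          Nat.add_le_add_left (Nat.mul_le_mul hqQ hA2) _
      _ = (L + 2) * (Q * Φ) * ((L + 2) * τ) := by ring
      _ ≤ (L + 2) * (Q * Φ) * (c * (L + 1) * W) := Nat.mul_le_mul_left _ hc
      _ = (L + 1) * (c * (L + 1 + 1) * (Q * Φ * W)) := by ring
      _ ≤ _ := Nat.mul_le_mul_left _ (Nat.mul_le_mul_left _ (Nat.le_add_right _ _))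
  · have hA3 : A1' ≤ Φ * τ := le_trans (Nat.le_mul_of_pos_left _ (by positivity)) hA2
    calc Q * (Φ * τ) + (q - 1) * A1' ≤ Q * (Φ * τ) + Q * (Φ * τ) :=
          Nat.add_le_add_left (Nat.mul_le_mul hqQ hA3) _
      _ = 2 * (Q * Φ) * τ := by ring
      _ ≤ q * q ^ (8 * q + 2 * L + 2) * τ := Nat.mul_le_mul_right _ (Nat.mul_le_mul hq hQΦ)
      _ ≤ _ := by
          refine Nat.mul_le_mul_right _ ?_
          rw [← pow_succ']
          exact Nat.pow_le_pow_right (by omega) (by omega)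

lemma ivt (f : ℕ → ℕ) (Y n : ℕ) (h0 : f 0 ≤ Y) (hn : Y < f n) :
    ∃ i < n, f i ≤ Y ∧ Y < f (i + 1) := by
  induction n with
  | zero => omega
  | succ n ih =>
    by_cases h : Y < f n
    · obtain ⟨i, hi, h'⟩ := ih h
      exact ⟨i, by omega, h'⟩
    · exact ⟨n, by omega, by omega, hn⟩

lemma hall_even (q : ℤ) (D : ℕ) :
    (q - 1) * (q ^ 2 - 1) ∣ q ^ (2 * D) - 1 - D * (q ^ 2 - 1) := by
  induction D with
  | zero => simp
  | succ D ih =>
    have h : (q - 1) ∣ q ^ (2 * D) - 1 := by simpa using sub_dvd_pow_sub_pow q 1 (2 * D)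
    have : q ^ (2 * (D + 1)) - 1 - ((D + 1 : ℕ) : ℤ) * (q ^ 2 - 1) =
        (q ^ (2 * D) - 1 - D * (q ^ 2 - 1)) + (q ^ (2 * D) - 1) * (q ^ 2 - 1) := by
      push_cast; ring
    rw [this]
    exact dvd_add ih (mul_dvd_mul_right h _)

lemma hall_num (q : ℤ) (D t : ℕ) :
    (q - 1) * (q ^ 2 - 1) ∣ (q ^ (2 * D) + q ^ t - 1) -
      ((((2 * D + t) / 2 : ℕ) : ℤ) * (q ^ 2 - 1) + q ^ ((2 * D + t) % 2)) := by
  have h1 : (2 * D + t) / 2 = D + t / 2 := by omega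
  have h2 : (2 * D + t) % 2 = t % 2 := by omega
  have h3 : q ^ t = q ^ (t % 2) * q ^ (2 * (t / 2)) := by
    rw [← pow_add]; congr 1; omega
  have h4 : (q - 1) ∣ q ^ (t % 2) - 1 := by simpa using sub_dvd_pow_sub_pow q 1 (t % 2)
  rw [h1, h2, h3]
  have : q ^ (2 * D) + q ^ (t % 2) * q ^ (2 * (t / 2)) - 1 -
      (((D + t / 2 : ℕ) : ℤ) * (q ^ 2 - 1) + q ^ (t % 2)) =
      (q ^ (2 * D) - 1 - D * (q ^ 2 - 1)) +
      q ^ (t % 2) * (q ^ (2 * (t / 2)) - 1 - ((t / 2 : ℕ) : ℤ) * (q ^ 2 - 1)) +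
      ((t / 2 : ℕ) : ℤ) * ((q ^ (t % 2) - 1) * (q ^ 2 - 1)) := by
    rw [Nat.cast_add]; ring
  rw [this]
  exact dvd_add (dvd_add (hall_even q D) (Dvd.dvd.mul_left (hall_even q _) _))
    (Dvd.dvd.mul_left (mul_dvd_mul_right h4 _) _)

/-- abundance `a` is attained by a group whose order is a power of `q` -/
def Attained (q a : ℕ) : Prop :=
  ∃ (G : Type) (_ : Group G) (_ : Finite G) (m : ℕ),
    Nat.card G = q ^ m ∧
    (Nat.card (ConjClasses G) : ℤ) =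
      ((m / 2 : ℕ) : ℤ) * ((q : ℤ) ^ 2 - 1) + (q : ℤ) ^ (m % 2)
        + (a : ℤ) * ((q : ℤ) ^ 2 - 1) * ((q : ℤ) - 1)

lemma Real.attained (h : Real F A0 A1 g W R d t) (hg : g ≤ R + 1) (a : ℕ)
    (h1 : A0 + (Fintype.card F - 1) * A1 ≤ a * ((Fintype.card F - 1) * (Fintype.card F ^ 2 - 1)))
    (h2 : a * ((Fintype.card F - 1) * (Fintype.card F ^ 2 - 1)) +
      (2 * (d + 1) + t) * Fintype.card F ^ 2 ≤ A0 + g * W) :
    Attained (Fintype.card F) a := by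
  have hq : 2 ≤ Fintype.card F := Fintype.one_lt_card
  set q := Fintype.card F with hqdef
  have hq2 : 4 ≤ q ^ 2 := by nlinarith
  set u := (q - 1) * (q ^ 2 - 1) with hu
  have hu1 : 1 ≤ u := Nat.mul_pos (by omega) (by omega)
  have huZ : (u : ℤ) = ((q : ℤ) - 1) * ((q : ℤ) ^ 2 - 1) := by
    rw [hu, Nat.cast_mul, Nat.cast_sub (by omega), Nat.cast_sub (by omega)]; push_cast; ring
  set m := 2 * (d + 1) + t with hm
  set x := m / 2 * (q ^ 2 - 1) + q ^ (m % 2) with hx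
  have hxZ : (x : ℤ) = ((m / 2 : ℕ) : ℤ) * ((q : ℤ) ^ 2 - 1) + (q : ℤ) ^ (m % 2) := by
    rw [hx, Nat.cast_add, Nat.cast_mul, Nat.cast_sub (by omega)]; push_cast; ring
  have hxle : x ≤ m * q ^ 2 := by
    have e1 : q ^ (m % 2) ≤ q ^ 2 := Nat.pow_le_pow_right (by omega) (by omega)
    have e2 : m / 2 * (q ^ 2 - 1) ≤ m / 2 * q ^ 2 := Nat.mul_le_mul_left _ (Nat.sub_le _ _)
    have e3 : (m / 2 + 1) * q ^ 2 ≤ m * q ^ 2 := Nat.mul_le_mul_right _ (by omega)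
    rw [add_mul, one_mul] at e3
    omega
  obtain ⟨G0, _, _, -, hk0, hd0⟩ := h.final hg 0 (Nat.zero_le _)
  rw [← hqdef] at hk0 hd0
  rw [mul_zero, add_zero] at hk0
  rw [hk0] at hd0
  set Base := A0 + (q - 1) * A1 with hBase
  have hle : Base ≤ x + a * u := h1.trans (Nat.le_add_left _ _)
  have hdvd : u ∣ x + a * u - Base := by
    rw [← Int.natCast_dvd_natCast, Nat.cast_sub hle, Nat.cast_add, hxZ, Nat.cast_mul a u, huZ]
    have e1 := hall_num (q : ℤ) (d + 1) t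
    rw [← hm] at e1
    obtain ⟨z1, hz1⟩ := hd0
    obtain ⟨z2, hz2⟩ := e1
    exact ⟨a - z1 - z2, by linear_combination -hz1 - hz2⟩
  obtain ⟨N, hN⟩ := hdvd
  have hNle : N ≤ g * W + R := by
    have e1 : u * N ≤ g * W := by omega
    have e2 : N ≤ u * N := Nat.le_mul_of_pos_left _ hu1
    omega
  obtain ⟨G, iG, fG, hG1, hG2, -⟩ := h.final hg N hNle
  refine ⟨G, iG, fG, m, hG1, ?_⟩
  rw [← hqdef, ← hu, ← hBase, ← hN, Nat.add_sub_cancel' hle] at hG2
  rw [hG2, Nat.cast_add, hxZ, Nat.cast_mul a u, huZ]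
  ring

lemma bernoulli_nat (s M : ℕ) : s ^ M * (s + M) ≤ (s + 1) ^ M * s := by
  induction M with
  | zero => simp
  | succ M ih =>
    calc s ^ (M + 1) * (s + (M + 1)) = s ^ M * (s * s + s * M + s) := by ring
      _ ≤ s ^ M * (s * s + s * M + s + M) := Nat.mul_le_mul_left _ (Nat.le_add_right _ _)
      _ = s ^ M * (s + M) * (s + 1) := by ring
      _ ≤ (s + 1) ^ M * s * (s + 1) := Nat.mul_le_mul_right _ ih
      _ = _ := by ring

lemma st_cover (c : ℕ) : ∃ L0 Z : ℕ, 1 ≤ Z ∧ ∀ L ≥ L0, ∀ τ, St F c L τ → ∀ a,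
    Z * τ ≤ 4 * c * (a * ((Fintype.card F - 1) * (Fintype.card F ^ 2 - 1))) →
    4 * c * (a * ((Fintype.card F - 1) * (Fintype.card F ^ 2 - 1))) <
      Z * (Fintype.card F ^ (2 * (L + 4 * Fintype.card F + 2)) * τ) →
    Attained (Fintype.card F) a := by
  have hq : 2 ≤ Fintype.card F := Fintype.one_lt_card
  set q := Fintype.card F with hqdef
  set K := 4 * c with hK
  set ρ := K + q with hρ
  set s := q ^ (2 * ρ) with hs
  set M := q ^ 2 * s with hM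
  have hKq : ∀ i, K + 1 ≤ i → K * q ≤ q ^ i := by
    intro i hi
    calc K * q ≤ q ^ K * q := Nat.mul_le_mul_right _
          (le_trans Nat.lt_two_pow_self.le (Nat.pow_le_pow_left hq _))
      _ = q ^ (K + 1) := by ring
      _ ≤ _ := Nat.pow_le_pow_right (by omega) hi
  have hspos : 0 < s := by positivity
  refine ⟨2 * ρ + (2 * ρ + 1) * M + K + 8, (K + 1) * (q ^ (2 * ρ) * s ^ M), Nat.one_le_iff_ne_zero.2
    (by positivity), ?_⟩
  rintro L hL τ ⟨W, d, t, A1, h, hc, ht, hLd⟩ a h1 h2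
  rw [← hqdef] at h
  set Y := a * ((q - 1) * (q ^ 2 - 1)) with hY
  -- choice of the number of private nodes
  obtain ⟨i, hi, hi1, hi2⟩ := ivt (fun i => (K + 1) * (q ^ (2 * (ρ + i)) * s ^ M) * τ) (K * Y)
    (L + 4 * q + 2) (by simpa using h1) (by
      refine h2.trans_le (le_of_eq ?_)
      ring)
  set j := ρ + i with hj
  have hB : q ^ 2 * s ^ M ≤ (s + (q - 1)) ^ M := by
    have e1 := bernoulli_nat s M
    have e2 : q ^ 2 * s ^ M * s ≤ (s + 1) ^ M * s := by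
      refine le_trans ?_ e1
      calc q ^ 2 * s ^ M * s = s ^ M * M := by rw [hM]; ring
        _ ≤ _ := Nat.mul_le_mul_left _ (Nat.le_add_left _ _)
    exact (Nat.le_of_mul_le_mul_right e2 hspos).trans (Nat.pow_le_pow_left (by omega) _)
  obtain ⟨μ, hμ, hμ1, hμ2⟩ := ivt
    (fun μ => (K + 1) * (q ^ (2 * j) * s ^ (M - μ) * (s + (q - 1)) ^ μ) * τ) (K * Y) M
    (by simpa using hi1) (by
      refine hi2.trans_le ?_
      refine Nat.mul_le_mul_right _ (Nat.mul_le_mul_left _ ?_)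
      rw [Nat.sub_self, pow_zero, mul_one]
      calc q ^ (2 * (ρ + (i + 1))) * s ^ M = q ^ (2 * j) * (q ^ 2 * s ^ M) := by rw [hj]; ring
        _ ≤ _ := Nat.mul_le_mul_left _ hB)
  obtain ⟨ν, hν⟩ : ∃ ν, M = μ + 1 + ν := ⟨M - (μ + 1), by omega⟩
  have e1 : M - μ = ν + 1 := by omega
  have e2 : M - (μ + 1) = ν := by omega
  simp only [e1, e2] at hμ1 hμ2
  set Φ := q ^ (2 * j) * s ^ (ν + 1) * (s + (q - 1)) ^ μ with hΦ
  obtain ⟨A1', hA, h'⟩ := h.level ρ (by omega) μ (j + ρ * (ν + 1)) Φ (by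
    rw [← hqdef, hΦ, hs]; ring)
  rw [← hqdef] at hA h'
  have hlow := h'.lower
  rw [← hqdef] at hlow
  set d' := d + μ * ρ + (j + ρ * (ν + 1)) with hd'
  have hKpos : 0 < K := by
    have hτ : 0 < τ := lt_of_lt_of_le (by positivity) h.lower
    rcases Nat.eq_zero_or_pos c with h0 | h0
    · rw [h0] at hc
      have : 0 < (L + 2) * τ := by positivity
      omega
    · omega
  refine h'.attained ?_ a ?_ ?_
  · have f1 : s + (q - 1) ≤ q ^ (2 * ρ + 1) := phi_le q ρ hq (by omega)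
    have f2 : s ≤ q ^ (2 * ρ + 1) := le_trans (Nat.le_add_right _ _) f1
    calc Φ ≤ q ^ (2 * j) * (q ^ (2 * ρ + 1)) ^ (ν + 1) * (q ^ (2 * ρ + 1)) ^ μ :=
          Nat.mul_le_mul (Nat.mul_le_mul_left _ (Nat.pow_le_pow_left f2 _))
            (Nat.pow_le_pow_left f1 _)
      _ = q ^ (2 * j + (2 * ρ + 1) * M) := by rw [hν]; ring
      _ ≤ q ^ (8 * q + 3 * L) := Nat.pow_le_pow_right (by omega) (by omega)
      _ ≤ q ^ μ * q ^ (8 * q + 3 * L) := Nat.le_mul_of_pos_left _ (by positivity)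
      _ ≤ _ := Nat.le_succ _
  · rw [← hqdef, ← hY]
    apply Nat.le_of_mul_le_mul_left _ hKpos
    have f1 : K * ((q - 1) * A1') ≤ Φ * τ := by
      refine le_trans ?_ hA
      rw [← mul_assoc]
      refine Nat.mul_le_mul_right _ (le_trans (Nat.mul_le_mul_left _ (Nat.sub_le _ _)) ?_)
      exact hKq _ (by omega)
    calc K * (Φ * τ + (q - 1) * A1') = K * (Φ * τ) + K * ((q - 1) * A1') := by ring
      _ ≤ K * (Φ * τ) + Φ * τ := Nat.add_le_add_left f1 _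
      _ = (K + 1) * Φ * τ := by ring
      _ ≤ _ := hμ1
  · rw [← hqdef, ← hY]
    apply Nat.le_of_mul_le_mul_left _ hKpos
    have f0 : K * (s + (q - 1)) ≤ (K + 1) * s := by
      have := hKq (2 * ρ) (by omega)
      have f : K * (q - 1) ≤ K * q := Nat.mul_le_mul_left _ (Nat.sub_le _ _)
      rw [mul_add, add_mul, one_mul]
      omega
    have f1 : K * Y ≤ (K + 3) * (Φ * τ) := by
      apply Nat.le_of_mul_le_mul_left _ hKpos
      calc K * (K * Y) ≤ K * ((K + 1) * (q ^ (2 * j) * s ^ ν * (s + (q - 1)) ^ (μ + 1)) * τ) :=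
            Nat.mul_le_mul_left _ hμ2.le
        _ = (K + 1) * (q ^ (2 * j) * s ^ ν * (s + (q - 1)) ^ μ) * τ * (K * (s + (q - 1))) := by
            ring
        _ ≤ (K + 1) * (q ^ (2 * j) * s ^ ν * (s + (q - 1)) ^ μ) * τ * ((K + 1) * s) :=
            Nat.mul_le_mul_left _ f0
        _ = (K + 1) * (K + 1) * (Φ * τ) := by rw [hΦ]; ring
        _ ≤ K * (K + 3) * (Φ * τ) := Nat.mul_le_mul_right _ (by nlinarith)
        _ = _ := by ring
    have f2 : K * ((2 * (d' + 1) + (t + μ)) * q ^ 2) ≤ Φ * τ := by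
      refine le_trans ?_ hlow
      have g1 : μ ≤ μ * ρ := Nat.le_mul_of_pos_right _ (by omega)
      have g2 : 2 * (d' + 1) + (t + μ) ≤ 4 * (d' + 1) := by omega
      have g3 : d' + 1 ≤ q ^ (d' + 1) :=
        le_trans Nat.lt_two_pow_self.le (Nat.pow_le_pow_left hq _)
      have g4 : 4 ≤ q ^ 2 := by nlinarith
      have g5 : K ≤ q ^ K := le_trans Nat.lt_two_pow_self.le (Nat.pow_le_pow_left hq _)
      calc K * ((2 * (d' + 1) + (t + μ)) * q ^ 2) ≤ q ^ K * ((q ^ 2 * q ^ (d' + 1)) * q ^ 2) :=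
            Nat.mul_le_mul g5 (Nat.mul_le_mul_right _ (g2.trans (Nat.mul_le_mul g4 g3)))
        _ = q ^ (K + 4 + (d' + 1)) := by ring
        _ ≤ _ := Nat.pow_le_pow_right (by omega) (by omega)
    have f3 : τ ≤ c * W := by
      apply Nat.le_of_mul_le_mul_left _ (Nat.succ_pos L)
      calc (L + 1) * τ ≤ (L + 2) * τ := Nat.mul_le_mul_right _ (by omega)
        _ ≤ c * (L + 1) * W := hc
        _ = (L + 1) * (c * W) := by ring
    calc K * (Y + (2 * (d' + 1) + (t + μ)) * q ^ 2)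
        = K * Y + K * ((2 * (d' + 1) + (t + μ)) * q ^ 2) := by ring
      _ ≤ (K + 3) * (Φ * τ) + Φ * τ := Nat.add_le_add f1 f2
      _ = K * (Φ * τ) + 4 * Φ * τ := by ring
      _ ≤ K * (Φ * τ) + 4 * Φ * (c * W) := Nat.add_le_add_left (Nat.mul_le_mul_left _ f3) _
      _ = K * (Φ * τ) + (4 * c) * (Φ * W) := by ring
      _ = _ := by rw [← hK]; ring

theorem attained_large : ∃ a0, ∀ a ≥ a0, Attained (Fintype.card F) a := by
  have hq : 2 ≤ Fintype.card F := Fintype.one_lt_card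
  obtain ⟨c, τ0, h0⟩ := st_zero (F := F)
  obtain ⟨L0, Z, hZ, hcov⟩ := st_cover (F := F) c
  set u := (Fintype.card F - 1) * (Fintype.card F ^ 2 - 1) with hu
  have hq2 : 4 ≤ Fintype.card F ^ 2 := by nlinarith
  have hu1 : 1 ≤ u := Nat.mul_pos (by omega) (by omega)
  have hex : ∀ L, ∃ τ, St F c L τ := by
    intro L
    induction L with
    | zero => exact ⟨τ0, h0⟩
    | succ L ih =>
      obtain ⟨τ, h⟩ := ih
      obtain ⟨τ', h', -⟩ := st_step h
      exact ⟨τ', h'⟩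
  obtain ⟨τ1, h1⟩ := hex L0
  have hc : 0 < c := by
    obtain ⟨W, d, t, A1, h, hc, -, -⟩ := h0
    have hτ : 0 < τ0 := lt_of_lt_of_le (by positivity) h.lower
    rcases Nat.eq_zero_or_pos c with h0 | h0
    · rw [h0] at hc; omega
    · exact h0
  have key : ∀ n, ∃ τ, St F c (L0 + n) τ ∧ ∀ a, Z * τ1 ≤ 4 * c * (a * u) →
      4 * c * (a * u) < Z * τ → Attained (Fintype.card F) a := by
    intro n
    induction n with
    | zero => exact ⟨τ1, h1, fun a e1 e2 => absurd e1 (by omega)⟩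
    | succ n ih =>
      obtain ⟨τ, h, hat⟩ := ih
      obtain ⟨τ', h', hle⟩ := st_step h
      refine ⟨τ', h', fun a e1 e2 => ?_⟩
      by_cases e3 : 4 * c * (a * u) < Z * τ
      · exact hat a e1 e3
      · exact hcov (L0 + n) (Nat.le_add_right _ _) τ h a (by omega)
          (e2.trans_le (Nat.mul_le_mul_left _ hle))
  refine ⟨Z * τ1, fun a ha => ?_⟩
  obtain ⟨τ, ⟨W, d, t, A1, h, -, -, hLd⟩, hat⟩ := key (4 * c * (a * u))
  refine hat a ?_ ?_
  · calc Z * τ1 ≤ a := ha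
      _ ≤ a * u := Nat.le_mul_of_pos_right _ hu1
      _ ≤ _ := Nat.le_mul_of_pos_left _ (by omega)
  · calc 4 * c * (a * u) < 2 * (d + 1) := by omega
      _ ≤ 2 ^ (2 * (d + 1)) := Nat.lt_two_pow_self.le
      _ ≤ Fintype.card F ^ (2 * (d + 1)) := Nat.pow_le_pow_left hq _
      _ ≤ τ := h.lower
      _ ≤ _ := Nat.le_mul_of_pos_left _ hZ

end Pool.Agent.Lib.MP_78c6b1_al
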