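import Pool.Agent.Lib.MP_78c6b1_al.Neg.Window
import Pool.Agent.Lib.MP_78c6b1_al.CA.EE
import Pool.Agent.Lib.MP_78c6b1_al.U1.Main
import Pool.Agent.Lib.MP_78c6b1_al.Beta.Main
import Pool.Agent.Lib.MP_78c6b1_al.CA.AlphaMain

/-! The classification of the characteristic zero limit, assembled. -/

namespace Pool.Agent.P78

theorem classStmt : ClassStmt := classStmt_of_UAB u1Stmt alphaStmt betaStmt

end Pool.Agent.P78
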