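import Mathlib

/-! Frames: linear spaces of linear maps with a designable last column. -/

set_option autoImplicit false
set_option linter.unusedSectionVars false

namespace Pool.Agent.Lib.MP_78c6b1_al

open Finset

variable {F : Type} [Field F] [Fintype F] [DecidableEq F]

section Ker

variable {U V : Type} [AddCommGroup U] [Module F U] [AddCommGroup V] [Module F V]

/-- size of the kernel -/
noncomputable def kz (f : U →ₗ[F] V) : ℕ := Nat.card {u : U // f u = 0}

/-- size of the kernel after adding the column `v` -/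
noncomputable def kc (f : U →ₗ[F] V) (v : V) : ℕ :=
  Nat.card {x : U × F // f x.1 + x.2 • v = 0}

lemma kc_of_mem (f : U →ₗ[F] V) (v : V) (h : v ∈ LinearMap.range f) :
    kc f v = kz f * Fintype.card F := by
  obtain ⟨u0, rfl⟩ := h
  unfold kc kz
  rw [← Nat.card_eq_fintype_card, ← Nat.card_prod]
  refine Nat.card_congr
    { toFun := fun x => (⟨x.1.1 + x.1.2 • u0, by simpa using x.2⟩, x.1.2)
      invFun := fun y => ⟨(y.1.1 - y.2 • u0, y.2), by simp [y.1.2]⟩
      left_inv := fun x => by simp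
      right_inv := fun y => by simp }

lemma kc_of_not_mem (f : U →ₗ[F] V) (v : V) (h : v ∉ LinearMap.range f) :
    kc f v = kz f := by
  have key : ∀ x : U × F, f x.1 + x.2 • v = 0 → x.2 = 0 := by
    intro x hx
    by_contra h2
    apply h
    refine ⟨-(x.2⁻¹ • x.1), ?_⟩
    have : f x.1 = -(x.2 • v) := eq_neg_of_add_eq_zero_left hx
    rw [map_neg, map_smul, this, smul_neg, neg_neg, smul_smul, inv_mul_cancel₀ h2, one_smul]
  unfold kc kz
  refine Nat.card_congr
    { toFun := fun x => ⟨x.1.1, by have := x.2; rw [key _ x.2] at this; simpa using this⟩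
      invFun := fun y => ⟨(y.1, 0), by simp [y.2]⟩
      left_inv := fun x => by
        apply Subtype.ext
        apply Prod.ext
        · rfl
        · exact (key _ x.2).symm
      right_inv := fun y => rfl }

lemma kz_le_kc (f : U →ₗ[F] V) (v : V) : kz f ≤ kc f v := by
  by_cases h : v ∈ LinearMap.range f
  · rw [kc_of_mem f v h]
    exact Nat.le_mul_of_pos_right _ Fintype.card_pos
  · rw [kc_of_not_mem f v h]

lemma kc_smul (f : U →ₗ[F] V) (v : V) (c : F) (hc : c ≠ 0) : kc (c • f) (c • v) = kc f v := by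
  unfold kc
  apply Nat.card_congr
  apply Equiv.subtypeEquivRight
  intro x
  rw [LinearMap.smul_apply, smul_comm x.2 c v, ← smul_add, smul_eq_zero]
  simp [hc]

lemma kz_of_inj (f : U →ₗ[F] V) (h : ∀ u, f u = 0 → u = 0) : kz f = 1 := by
  unfold kz
  rw [Nat.card_eq_one_iff_exists]
  exact ⟨⟨0, map_zero f⟩, fun y => Subtype.ext (h _ y.2)⟩

lemma card_mul_eq_zero (a : F) :
    Nat.card {s : F // a * s = 0} = if a = 0 then Fintype.card F else 1 := by
  split_ifs with h
  · simp [h]
  · rw [Nat.card_eq_one_iff_exists]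
    exact ⟨⟨0, mul_zero a⟩, fun y => Subtype.ext ((mul_eq_zero.1 y.2).resolve_left h)⟩

end Ker

/-- A frame. -/
structure Frame (F : Type) [Field F] (Λ : Type) [AddCommGroup Λ] [Module F Λ]
    (w : Λ →ₗ[F] F) (Des : Type) (T : Finset Λ) : Type 1 where
  U : Type
  V : Type
  [acU : AddCommGroup U]
  [mU : Module F U]
  [fU : Finite U]
  [acV : AddCommGroup V]
  [mV : Module F V]
  [fV : Finite V]
  B : Λ →ₗ[F] U →ₗ[F] V
  E : Des → Λ →ₗ[F] V
  D : Submodule F V
  r : V
  ψ : Λ → V →ₗ[F] F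
  wT : ∀ l ∈ T, w l = 1
  r_mem : r ∈ D
  bad : ∀ l, w l = 1 → l ∉ T → ∀ δ, ∀ e ∈ D, E δ l + e ∉ LinearMap.range (B l)
  inj : ∀ l ∈ T, ∀ u, B l u = 0 → u = 0
  rng : ∀ l ∈ T, ∀ v, v ∈ LinearMap.range (B l) ↔ ψ l v = 0
  ψr : ∀ l ∈ T, ψ l r = 1
  ψE : ∀ l ∈ T, ∀ δ, ψ l (E δ l) = 0

attribute [instance] Frame.acU Frame.mU Frame.fU Frame.acV Frame.mV Frame.fV

variable {Λ : Type} [AddCommGroup Λ] [Module F Λ] {w : Λ →ₗ[F] F} {Des : Type} {T : Finset Λ}

namespace Frame

/-- matrix after adding a chain node -/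
def nodeB (A : Frame F Λ w Des T) (a : Λ →ₗ[F] F) : Λ →ₗ[F] (A.U × F) →ₗ[F] (A.V × F) :=
  LinearMap.mk₂ F (fun l u => (A.B l u.1 + (w l * u.2) • A.r, a l * u.2))
    (fun l l' u => by
      ext
      · simp [add_mul, add_smul]; abel
      · simp [add_mul])
    (fun c l u => by
      ext
      · simp [mul_assoc, mul_smul]
      · simp [mul_assoc])
    (fun l u u' => by
      ext
      · simp [mul_add, add_smul]; abel
      · simp [mul_add])
    (fun c l u => by
      ext
      · simp [smul_smul, mul_left_comm]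
      · simp [mul_left_comm])

@[simp] lemma nodeB_apply (A : Frame F Λ w Des T) (a : Λ →ₗ[F] F) (l : Λ) (u : A.U × F) :
    A.nodeB a l u = (A.B l u.1 + (w l * u.2) • A.r, a l * u.2) := rfl

/-- adding a chain node with diagonal entry `a` -/
def node (A : Frame F Λ w Des T) (a : Λ →ₗ[F] F) : Frame F Λ w Des T where
  U := A.U × F
  V := A.V × F
  B := A.nodeB a
  E δ := LinearMap.prod (A.E δ) 0
  D := A.D.prod ⊤
  r := (0, 1)
  ψ l := LinearMap.snd F _ _ - a l • (A.ψ l ∘ₗ LinearMap.fst F _ _)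
  wT := A.wT
  r_mem := by simp
  bad := by
    rintro l hl hT δ e he ⟨u, hu⟩
    have h1 : A.B l u.1 + (w l * u.2) • A.r = A.E δ l + e.1 := congrArg Prod.fst hu
    rw [hl, one_mul] at h1
    refine A.bad l hl hT δ (e.1 - u.2 • A.r) (A.D.sub_mem he.1 (A.D.smul_mem _ A.r_mem)) ⟨u.1, ?_⟩
    rw [← add_sub_assoc, ← h1]; abel
  inj := by
    intro l hl u hu
    have h1 := congrArg Prod.fst hu
    simp only [nodeB_apply, A.wT l hl, one_mul, Prod.fst_zero] at h1
    have h2 := congrArg (A.ψ l) h1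
    rw [map_add, map_smul, (A.rng l hl _).1 ⟨u.1, rfl⟩, A.ψr l hl] at h2
    have h3 : u.2 = 0 := by simpa using h2
    rw [h3, zero_smul, add_zero] at h1
    exact Prod.ext (A.inj l hl _ h1) h3
  rng := by
    intro l hl v
    constructor
    · rintro ⟨u, rfl⟩
      simp [A.wT l hl, (A.rng l hl _).1 ⟨u.1, rfl⟩, A.ψr l hl]
    · intro h
      have h1 : v.1 - A.ψ l v.1 • A.r ∈ LinearMap.range (A.B l) := by
        rw [A.rng l hl]; simp [A.ψr l hl]
      obtain ⟨u, hu⟩ := h1
      refine ⟨(u, A.ψ l v.1), ?_⟩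
      have h2 : v.2 - a l * A.ψ l v.1 = 0 := by simpa using h
      ext
      · simp [A.wT l hl, hu]
      · simp only [nodeB_apply]; linear_combination -h2
  ψr := by intro l _; simp
  ψE := by intro l hl δ; simp [A.ψE l hl δ]

lemma node_ψ (A : Frame F Λ w Des T) (a : Λ →ₗ[F] F) (l : Λ) (v : A.V) (s : F) :
    (A.node a).ψ l (v, s) = s - a l * A.ψ l v := rfl

lemma node_cardU (A : Frame F Λ w Des T) (a : Λ →ₗ[F] F) :
    Nat.card (A.node a).U = Nat.card A.U * Fintype.card F := by
  rw [← Nat.card_eq_fintype_card, ← Nat.card_prod]; rfl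

lemma node_cardV (A : Frame F Λ w Des T) (a : Λ →ₗ[F] F) :
    Nat.card (A.node a).V = Nat.card A.V * Fintype.card F := by
  rw [← Nat.card_eq_fintype_card, ← Nat.card_prod]; rfl

/-- weight of a parameter for a given lower design -/
noncomputable def low (A : Frame F Λ w Des T) (δ : Des) (l : Λ) : ℕ := kc (A.B l) (A.E δ l)

lemma node_low (A : Frame F Λ w Des T) (a : Λ →ₗ[F] F) (δ : Des) (l : Λ) (hl : w l = 0) :
    (A.node a).low δ l = A.low δ l * (if a l = 0 then Fintype.card F else 1) := by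
  rw [← card_mul_eq_zero]
  unfold low kc
  rw [← Nat.card_prod]
  have key : ∀ x : (A.U × F) × F, ((A.node a).B l x.1 + x.2 • (A.node a).E δ l = 0) ↔
      (A.B l x.1.1 + x.2 • A.E δ l = 0 ∧ a l * x.1.2 = 0) := by
    intro x
    show (A.nodeB a l x.1 + x.2 • (LinearMap.prod (A.E δ) 0 l : A.V × F) = 0) ↔ _
    simp [hl, Prod.ext_iff]
  exact Nat.card_congr
    { toFun := fun x => (⟨(x.1.1.1, x.1.2), ((key x.1).1 x.2).1⟩, ⟨x.1.1.2, ((key x.1).1 x.2).2⟩)
      invFun := fun y => ⟨((y.1.1.1, y.2.1), y.1.1.2), (key _).2 ⟨y.1.2, y.2.2⟩⟩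
      left_inv := fun x => rfl
      right_inv := fun y => rfl }

lemma node_kz (A : Frame F Λ w Des T) (l : Λ) (hl : w l = 1) :
    kz ((A.node w).B l) = kz (A.B l) := by
  unfold kz
  have key : ∀ x : A.U × F, ((A.node w).B l x = 0) ↔ (A.B l x.1 = 0 ∧ x.2 = 0) := by
    intro x
    show (A.nodeB w l x = 0) ↔ _
    simp only [nodeB_apply, hl, one_mul, Prod.mk_eq_zero]
    constructor
    · rintro ⟨h1, h2⟩; rw [h2] at h1; exact ⟨by simpa using h1, h2⟩
    · rintro ⟨h1, h2⟩; rw [h1, h2]; simp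
  exact Nat.card_congr
    { toFun := fun x => ⟨x.1.1, ((key x.1).1 x.2).1⟩
      invFun := fun y => ⟨(y.1, 0), (key _).2 ⟨y.2, rfl⟩⟩
      left_inv := fun x => Subtype.ext (Prod.ext rfl ((key x.1).1 x.2).2.symm)
      right_inv := fun y => rfl }

/-- adding several chain nodes; the head of the list is added last -/
def nodes (A : Frame F Λ w Des T) : List (Λ →ₗ[F] F) → Frame F Λ w Des T
  | [] => A
  | a :: L => (nodes A L).node a

lemma nodes_cardU (A : Frame F Λ w Des T) (L : List (Λ →ₗ[F] F)) :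
    Nat.card (A.nodes L).U = Nat.card A.U * Fintype.card F ^ L.length := by
  induction L with
  | nil => simp [nodes]
  | cons a L ih => rw [nodes, node_cardU, ih, List.length_cons, pow_succ, mul_assoc]

lemma nodes_cardV (A : Frame F Λ w Des T) (L : List (Λ →ₗ[F] F)) :
    Nat.card (A.nodes L).V = Nat.card A.V * Fintype.card F ^ L.length := by
  induction L with
  | nil => simp [nodes]
  | cons a L ih => rw [nodes, node_cardV, ih, List.length_cons, pow_succ, mul_assoc]

lemma nodes_low_all (A : Frame F Λ w Des T) (L : List (Λ →ₗ[F] F)) (δ : Des) (l : Λ)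
    (hl : w l = 0) (h : ∀ a ∈ L, a l = 0) :
    (A.nodes L).low δ l = A.low δ l * Fintype.card F ^ L.length := by
  induction L with
  | nil => simp [nodes]
  | cons a L ih =>
    rw [nodes, node_low _ _ _ _ hl, ih (fun b hb => h b (List.mem_cons_of_mem _ hb)),
      if_pos (h a List.mem_cons_self), List.length_cons, pow_succ, mul_assoc]

lemma nodes_low_none (A : Frame F Λ w Des T) (L : List (Λ →ₗ[F] F)) (δ : Des) (l : Λ)
    (hl : w l = 0) (h : ∀ a ∈ L, a l ≠ 0) :
    (A.nodes L).low δ l = A.low δ l := by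
  induction L with
  | nil => simp [nodes]
  | cons a L ih =>
    rw [nodes, node_low _ _ _ _ hl, ih (fun b hb => h b (List.mem_cons_of_mem _ hb)),
      if_neg (h a List.mem_cons_self), mul_one]

lemma nodes_target (A : Frame F Λ w Des T) (y : Λ →ₗ[F] F) (cs : List F) (P : F → Prop) :
    ∀ v : F → F, ∃ v' : F → F, ∀ e ∈ A.D, ∃ e' ∈ (A.nodes (cs.map fun c => y - c • w)).D,
      ∀ l ∈ T, ((A.nodes (cs.map fun c => y - c • w)).ψ l e' = v (y l) ↔
        if y l ∈ cs then P (y l) else A.ψ l e = v' (y l)) := by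
  classical
  induction cs with
  | nil =>
    intro v
    exact ⟨v, fun e he => ⟨e, he, fun l _ => by
      rw [if_neg List.not_mem_nil]; exact Iff.rfl⟩⟩
  | cons c cs ih =>
    intro v
    let s : F := if P c then v c else v c + 1
    obtain ⟨v', hv'⟩ := ih (fun z => (s - v z) / (z - c))
    refine ⟨v', fun e he => ?_⟩
    obtain ⟨e1, he1, h1⟩ := hv' e he
    refine ⟨(e1, s), ⟨he1, trivial⟩, fun l hl => ?_⟩
    have hw := A.wT l hl
    show ((A.nodes (cs.map fun c => y - c • w)).node (y - c • w)).ψ l (e1, s) = _ ↔ _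
    rw [node_ψ]
    have ha : (y - c • w) l = y l - c := by simp [hw]
    rw [ha]
    by_cases hc : y l = c
    · rw [hc]
      simp only [sub_self, zero_mul, sub_zero, List.mem_cons, true_or, if_true, s]
      by_cases hP : P c <;> simp [hP]
    · have h2 := h1 l hl
      have hne : y l - c ≠ 0 := sub_ne_zero.2 hc
      simp only [List.mem_cons, hc, false_or]
      rw [← h2, eq_div_iff hne]
      constructor
      · intro h; linear_combination -h
      · intro h; linear_combination -h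

/-- adding a new parameter that is not yet used -/
def pull (A : Frame F Λ w Des T) :
    Frame F (Λ × F) (w ∘ₗ LinearMap.fst F Λ F) Des (T ×ˢ univ) where
  U := A.U
  V := A.V
  B := A.B ∘ₗ LinearMap.fst F Λ F
  E δ := A.E δ ∘ₗ LinearMap.fst F Λ F
  D := A.D
  r := A.r
  ψ l := A.ψ l.1
  wT l hl := A.wT l.1 (mem_product.1 hl).1
  r_mem := A.r_mem
  bad l hl hT := A.bad l.1 hl (fun h => hT (mem_product.2 ⟨h, mem_univ _⟩))
  inj l hl := A.inj l.1 (mem_product.1 hl).1
  rng l hl := A.rng l.1 (mem_product.1 hl).1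
  ψr l hl := A.ψr l.1 (mem_product.1 hl).1
  ψE l hl := A.ψE l.1 (mem_product.1 hl).1

/-- matrix after adding a control parameter -/
def ctrlB (A : Frame F Λ w Des T) :
    (Λ × F) →ₗ[F] (A.U × ({c : F // c ≠ 1} → F)) →ₗ[F] (A.V × ({c : F // c ≠ 1} → F)) :=
  LinearMap.mk₂ F (fun l u => (A.B l.1 u.1, fun c => (w l.1 - c.1 * l.2) * u.2 c))
    (fun l l' u => by
      ext
      · simp
      · simp; ring)
    (fun c l u => by
      ext
      · simp
      · simp; ring)
    (fun l u u' => by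
      ext
      · simp
      · simp; ring)
    (fun c l u => by
      ext
      · simp
      · simp; ring)

@[simp] lemma ctrlB_apply (A : Frame F Λ w Des T) (l : Λ × F)
    (u : A.U × ({c : F // c ≠ 1} → F)) :
    A.ctrlB l u = (A.B l.1 u.1, fun c => (w l.1 - c.1 * l.2) * u.2 c) := rfl

/-- last column after adding a control parameter -/
def ctrlE (A : Frame F Λ w Des T) (δ : Des × A.D) :
    (Λ × F) →ₗ[F] (A.V × ({c : F // c ≠ 1} → F)) where
  toFun l := (A.E δ.1 l.1 + (w l.1 - l.2) • (δ.2 : A.V), fun _ => l.2)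
  map_add' l l' := by
    ext
    · simp only [Prod.fst_add, map_add, Prod.snd_add]
      module
    · simp
  map_smul' c l := by
    ext
    · simp only [Prod.smul_fst, map_smul, Prod.smul_snd, RingHom.id_apply, smul_eq_mul]
      module
    · simp

@[simp] lemma ctrlE_apply (A : Frame F Λ w Des T) (δ : Des × A.D) (l : Λ × F) :
    A.ctrlE δ l = (A.E δ.1 l.1 + (w l.1 - l.2) • (δ.2 : A.V), fun _ => l.2) := rfl

/-- adding a control parameter -/
def ctrl (A : Frame F Λ w Des T) :
    Frame F (Λ × F) (LinearMap.snd F Λ F) (Des × A.D) (T ×ˢ {1}) where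
  U := A.U × ({c : F // c ≠ 1} → F)
  V := A.V × ({c : F // c ≠ 1} → F)
  B := A.ctrlB
  E := A.ctrlE
  D := A.D.prod ⊥
  r := (A.r, 0)
  ψ l := A.ψ l.1 ∘ₗ LinearMap.fst F _ _
  wT l hl := by simpa using (mem_product.1 hl).2
  r_mem := ⟨A.r_mem, rfl⟩
  bad := by
    rintro l hl hT δ e he ⟨u, hu⟩
    have hl2 : l.2 = 1 := hl
    have he2 : e.2 = 0 := he.2
    by_cases h : w l.1 = 1
    · have h1 := congrArg Prod.fst hu
      simp only [ctrlB_apply, ctrlE_apply, h, hl2, sub_self, zero_smul, add_zero,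
        Prod.fst_add] at h1
      exact A.bad l.1 h (fun h' => hT (mem_product.2 ⟨h', by simp [hl2]⟩)) δ.1 e.1 he.1 ⟨u.1, h1⟩
    · have h1 := congrFun (congrArg Prod.snd hu) ⟨w l.1, h⟩
      simp [hl2, he2] at h1
  inj := by
    intro l hl u hu
    have hl1 := (mem_product.1 hl).1
    have hl2 : l.2 = 1 := by simpa using (mem_product.1 hl).2
    refine Prod.ext (A.inj l.1 hl1 _ (congrArg Prod.fst hu)) (funext fun c => ?_)
    have h1 := congrFun (congrArg Prod.snd hu) c
    simp only [ctrlB_apply, hl2, A.wT l.1 hl1, mul_one, Prod.snd_zero, Pi.zero_apply,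
      mul_eq_zero] at h1
    exact h1.resolve_left (sub_ne_zero.2 (Ne.symm c.2))
  rng := by
    intro l hl v
    have hl1 := (mem_product.1 hl).1
    have hl2 : l.2 = 1 := by simpa using (mem_product.1 hl).2
    constructor
    · rintro ⟨u, rfl⟩
      exact (A.rng l.1 hl1 _).1 ⟨u.1, rfl⟩
    · intro h
      obtain ⟨u, hu⟩ := (A.rng l.1 hl1 v.1).2 h
      refine ⟨(u, fun c => v.2 c / (1 - c.1)), ?_⟩
      ext c
      · exact hu
      · have : (1 : F) - c.1 ≠ 0 := sub_ne_zero.2 (Ne.symm c.2)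
        simp only [ctrlB_apply, hl2, A.wT l.1 hl1, mul_one]
        field_simp
  ψr l hl := A.ψr l.1 (mem_product.1 hl).1
  ψE := by
    intro l hl δ
    have hl1 := (mem_product.1 hl).1
    have hl2 : l.2 = 1 := by simpa using (mem_product.1 hl).2
    simp [hl2, A.wT l.1 hl1, A.ψE l.1 hl1]

lemma card_fun_ne_one : Nat.card ({c : F // c ≠ 1} → F) = Fintype.card F ^ (Fintype.card F - 1) := by
  rw [Nat.card_eq_fintype_card, Fintype.card_fun, Fintype.card_subtype_compl,
    Fintype.card_subtype_eq]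

lemma ctrl_cardU (A : Frame F Λ w Des T) :
    Nat.card A.ctrl.U = Nat.card A.U * Fintype.card F ^ (Fintype.card F - 1) := by
  rw [← card_fun_ne_one, ← Nat.card_prod]; rfl

lemma ctrl_cardV (A : Frame F Λ w Des T) :
    Nat.card A.ctrl.V = Nat.card A.V * Fintype.card F ^ (Fintype.card F - 1) := by
  rw [← card_fun_ne_one, ← Nat.card_prod]; rfl

lemma ctrl_low (A : Frame F Λ w Des T) (δ : Des × A.D) (l : Λ) :
    A.ctrl.low δ (l, 0) = kc (A.B l) (A.E δ.1 l + w l • (δ.2 : A.V)) *
      (if w l = 0 then Fintype.card F ^ (Fintype.card F - 1) else 1) := by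
  have hc : Nat.card {v : {c : F // c ≠ 1} → F // ∀ c, w l * v c = 0} =
      (if w l = 0 then Fintype.card F ^ (Fintype.card F - 1) else 1) := by
    split_ifs with h
    · rw [← card_fun_ne_one]
      exact Nat.card_congr (Equiv.subtypeUnivEquiv (by simp [h]))
    · rw [Nat.card_eq_one_iff_exists]
      exact ⟨⟨0, by simp⟩, fun y => Subtype.ext
        (funext fun c => (mul_eq_zero.1 (y.2 c)).resolve_left h)⟩
  rw [← hc]
  unfold low kc
  rw [← Nat.card_prod]
  have key : ∀ x : (A.U × ({c : F // c ≠ 1} → F)) × F,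
      (A.ctrl.B (l, 0) x.1 + x.2 • A.ctrl.E δ (l, 0) = 0) ↔
      (A.B l x.1.1 + x.2 • (A.E δ.1 l + w l • (δ.2 : A.V)) = 0 ∧ ∀ c, w l * x.1.2 c = 0) := by
    intro x
    show (A.ctrlB (l, 0) x.1 + x.2 • A.ctrlE δ (l, 0) = 0) ↔ _
    simp [Prod.ext_iff, funext_iff]
  exact Nat.card_congr
    { toFun := fun x => (⟨(x.1.1.1, x.1.2), ((key x.1).1 x.2).1⟩, ⟨x.1.1.2, ((key x.1).1 x.2).2⟩)
      invFun := fun y => ⟨((y.1.1.1, y.2.1), y.1.1.2), (key _).2 ⟨y.1.2, y.2.2⟩⟩
      left_inv := fun x => rfl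
      right_inv := fun y => rfl }

end Frame

end Pool.Agent.Lib.MP_78c6b1_al
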