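import Mathlib

/-! Class two groups attached to a linear space of linear maps and their class numbers. -/

set_option autoImplicit false
set_option linter.unusedSectionVars false

namespace Pool.Agent.Lib.MP_78c6b1_al

open Module

section Heis

variable {F : Type} [Field F] {X Y Z : Type} [AddCommGroup X] [Module F X] [AddCommGroup Y]
  [Module F Y] [AddCommGroup Z] [Module F Z]

/-- Heisenberg type group of a bilinear map. -/
@[ext] structure Heis (β : X →ₗ[F] Y →ₗ[F] Z) where
  x : X
  y : Y
  z : Z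

variable (β : X →ₗ[F] Y →ₗ[F] Z)

instance : Mul (Heis β) := ⟨fun a b => ⟨a.x + b.x, a.y + b.y, a.z + b.z + β a.x b.y⟩⟩
instance : One (Heis β) := ⟨⟨0, 0, 0⟩⟩
instance : Inv (Heis β) := ⟨fun a => ⟨-a.x, -a.y, -a.z + β a.x a.y⟩⟩

@[simp] lemma Heis.mul_x (a b : Heis β) : (a * b).x = a.x + b.x := rfl
@[simp] lemma Heis.mul_y (a b : Heis β) : (a * b).y = a.y + b.y := rfl
@[simp] lemma Heis.mul_z (a b : Heis β) : (a * b).z = a.z + b.z + β a.x b.y := rfl
@[simp] lemma Heis.one_x : (1 : Heis β).x = 0 := rfl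
@[simp] lemma Heis.one_y : (1 : Heis β).y = 0 := rfl
@[simp] lemma Heis.one_z : (1 : Heis β).z = 0 := rfl
@[simp] lemma Heis.inv_x (a : Heis β) : (a⁻¹).x = -a.x := rfl
@[simp] lemma Heis.inv_y (a : Heis β) : (a⁻¹).y = -a.y := rfl
@[simp] lemma Heis.inv_z (a : Heis β) : (a⁻¹).z = -a.z + β a.x a.y := rfl

instance : Group (Heis β) := Group.ofLeftAxioms
  (fun a b c => by
    ext
    · simp [add_assoc]
    · simp [add_assoc]
    · simp; abel)
  (fun a => by ext <;> simp)
  (fun a => by ext <;> simp)

/-- the underlying set -/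
def Heis.equiv : Heis β ≃ X × Y × Z where
  toFun a := (a.x, a.y, a.z)
  invFun a := ⟨a.1, a.2.1, a.2.2⟩
  left_inv _ := rfl
  right_inv _ := rfl

lemma Heis.card : Nat.card (Heis β) = Nat.card X * (Nat.card Y * Nat.card Z) := by
  rw [Nat.card_congr (Heis.equiv β), Nat.card_prod, Nat.card_prod]

lemma Heis.commute_iff (a b : Heis β) : Commute a b ↔ β a.x b.y = β b.x a.y := by
  constructor
  · intro h
    have := congrArg Heis.z h.eq
    simp only [Heis.mul_z] at this
    rw [add_comm a.z b.z] at this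
    exact add_left_cancel this
  · intro h
    show a * b = b * a
    ext
    · simp [add_comm]
    · simp [add_comm]
    · simp [h, add_comm]

/-- commuting pairs -/
def Heis.commEquiv : {p : Heis β × Heis β // Commute p.1 p.2} ≃
    (Z × Z) × (Σ u : X × X, {v : Y × Y // β u.1 v.2 = β u.2 v.1}) where
  toFun p := ((p.1.1.z, p.1.2.z), ⟨(p.1.1.x, p.1.2.x), ⟨(p.1.1.y, p.1.2.y),
    (Heis.commute_iff β _ _).1 p.2⟩⟩)
  invFun a := ⟨(⟨a.2.1.1, a.2.2.1.1, a.1.1⟩, ⟨a.2.1.2, a.2.2.1.2, a.1.2⟩),
    (Heis.commute_iff β _ _).2 a.2.2.2⟩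
  left_inv _ := rfl
  right_inv _ := rfl

end Heis

section Count

variable {F : Type} [Field F] [Finite F]

lemma card_ker_mul_card_range {A C : Type} [AddCommGroup A] [Module F A] [AddCommGroup C]
    [Module F C] [Finite A] (f : A →ₗ[F] C) :
    Nat.card (LinearMap.ker f) * Nat.card (LinearMap.range f) = Nat.card A := by
  have : Module.Finite F A := Module.Finite.of_finite
  rw [Module.natCard_eq_pow_finrank (K := F) (V := A),
    Module.natCard_eq_pow_finrank (K := F) (V := LinearMap.ker f),
    Module.natCard_eq_pow_finrank (K := F) (V := LinearMap.range f), ← pow_add,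
    ← f.finrank_range_add_finrank_ker, add_comm]

lemma card_dual (A : Type) [AddCommGroup A] [Module F A] [Finite A] :
    Nat.card (Dual F A) = Nat.card A := by
  have : Module.Finite F A := Module.Finite.of_finite
  rw [Module.natCard_eq_pow_finrank (K := F) (V := A),
    Module.natCard_eq_pow_finrank (K := F) (V := Dual F A), Subspace.dual_finrank_eq]

lemma finite_dual (A : Type) [AddCommGroup A] [Module F A] [Finite A] : Finite (Dual F A) :=
  Finite.of_injective (fun f : Dual F A => (f : A → F)) DFunLike.coe_injective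

variable {Λ U V : Type} [AddCommGroup Λ] [Module F Λ] [Fintype Λ] [AddCommGroup U] [Module F U]
  [Finite U] [AddCommGroup V] [Module F V] [Finite V]

/-- the bilinear map defining the group -/
def beta (B : Λ →ₗ[F] U →ₗ[F] V) : U →ₗ[F] Dual F V →ₗ[F] Dual F Λ :=
  LinearMap.mk₂ F (fun u φ => (B.flip u).dualMap φ)
    (fun u u' φ => by ext; simp) (fun c u φ => by ext; simp)
    (fun u φ φ' => by ext; simp) (fun c u φ => by ext; simp)

omit [Finite F] [Fintype Λ] [Finite U] [Finite V] in
@[simp] lemma beta_apply (B : Λ →ₗ[F] U →ₗ[F] V) (u : U) (φ : Dual F V) (l : Λ) :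
    beta B u φ l = φ (B l u) := rfl

omit [Finite U] in
lemma fiber_card (B : Λ →ₗ[F] U →ₗ[F] V) (u : U × U) :
    Nat.card {v : Dual F V × Dual F V // beta B u.1 v.2 = beta B u.2 v.1} * Nat.card Λ =
      Nat.card V ^ 2 * Nat.card {l : Λ // B l u.1 = 0 ∧ B l u.2 = 0} := by
  have := finite_dual (F := F) V
  have := finite_dual (F := F) (V × V)
  have : Module.Finite F Λ := Module.Finite.of_finite
  have : Module.Finite F (V × V) := Module.Finite.of_finite
  let S : Λ →ₗ[F] V × V := LinearMap.prod (-(B.flip u.2)) (B.flip u.1)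
  have h1 : Nat.card {l : Λ // B l u.1 = 0 ∧ B l u.2 = 0} = Nat.card (LinearMap.ker S) := by
    apply Nat.card_congr
    apply Equiv.subtypeEquivRight
    intro l
    simp [S, and_comm]
  have h2 : Nat.card {v : Dual F V × Dual F V // beta B u.1 v.2 = beta B u.2 v.1} =
      Nat.card (LinearMap.ker S.dualMap) := by
    apply Nat.card_congr
    refine Equiv.subtypeEquiv (Module.dualProdDualEquivDual F V V).toEquiv ?_
    intro v
    simp only [LinearMap.mem_ker, LinearMap.ext_iff, beta_apply]
    apply forall_congr'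
    intro l
    simp [S]
    constructor
    · intro h; rw [h]; ring
    · intro h; linear_combination h
  have h3 := card_ker_mul_card_range S
  have h4 := card_ker_mul_card_range S.dualMap
  have h5 : Nat.card (LinearMap.range S.dualMap) = Nat.card (LinearMap.range S) := by
    rw [Module.natCard_eq_pow_finrank (K := F) (V := LinearMap.range S),
      Module.natCard_eq_pow_finrank (K := F) (V := LinearMap.range S.dualMap),
      LinearMap.finrank_range_dualMap_eq_finrank_range]
  rw [card_dual, Nat.card_prod, h5] at h4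
  rw [h1, h2, ← h3, sq, ← h4]
  ring

omit [Finite F] [Finite V] in
lemma sum_sq_ker (B : Λ →ₗ[F] U →ₗ[F] V) [Fintype U] :
    ∑ u : U × U, Nat.card {l : Λ // B l u.1 = 0 ∧ B l u.2 = 0} =
      ∑ l : Λ, Nat.card {u : U // B l u = 0} ^ 2 := by
  classical
  have h1 : ∀ u : U × U, Nat.card {l : Λ // B l u.1 = 0 ∧ B l u.2 = 0} =
      ∑ l : Λ, if B l u.1 = 0 ∧ B l u.2 = 0 then 1 else 0 := by
    intro u
    rw [Nat.card_eq_fintype_card, Fintype.card_subtype, Finset.card_filter]
  have h2 : ∀ l : Λ, Nat.card {u : U // B l u = 0} ^ 2 =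
      ∑ u : U × U, if B l u.1 = 0 ∧ B l u.2 = 0 then 1 else 0 := by
    intro l
    rw [Nat.card_eq_fintype_card, Fintype.card_subtype, Finset.card_filter, sq,
      Finset.sum_mul_sum, Fintype.sum_prod_type]
    refine Finset.sum_congr rfl fun a _ => Finset.sum_congr rfl fun b _ => ?_
    by_cases ha : B l a = 0 <;> by_cases hb : B l b = 0 <;> simp [ha, hb]
  simp_rw [h1, h2]
  exact Finset.sum_comm

theorem exists_group (B : Λ →ₗ[F] U →ₗ[F] V) (hUV : Nat.card U = Nat.card V) :
    ∃ (G : Type) (_ : Group G) (_ : Finite G),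
      Nat.card G = Nat.card U * (Nat.card V * Nat.card Λ) ∧
      Nat.card (ConjClasses G) = ∑ l : Λ, Nat.card {u : U // B l u = 0} ^ 2 := by
  classical
  have := finite_dual (F := F) V
  have := finite_dual (F := F) Λ
  have := Fintype.ofFinite U
  have hfin : Finite (Heis (beta B)) := Finite.of_equiv _ (Heis.equiv (beta B)).symm
  have hc : Nat.card (Heis (beta B)) = Nat.card U * (Nat.card V * Nat.card Λ) := by
    rw [Heis.card, card_dual, card_dual]
  refine ⟨Heis (beta B), inferInstance, hfin, hc, ?_⟩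
  have h := card_comm_eq_card_conjClasses_mul_card (Heis (beta B))
  rw [Nat.card_congr (Heis.commEquiv (beta B)), Nat.card_prod, Nat.card_prod, card_dual,
    Nat.card_sigma, hc] at h
  have h2 : (∑ u : U × U,
      Nat.card {v : Dual F V × Dual F V // beta B u.1 v.2 = beta B u.2 v.1}) * Nat.card Λ =
      Nat.card V ^ 2 * ∑ l : Λ, Nat.card {u : U // B l u = 0} ^ 2 := by
    rw [Finset.sum_mul, ← sum_sq_ker, Finset.mul_sum]
    exact Finset.sum_congr rfl fun u _ => fiber_card B u
  have hpos : 0 < Nat.card U * (Nat.card V * Nat.card Λ) :=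
    Nat.mul_pos Nat.card_pos (Nat.mul_pos Nat.card_pos Nat.card_pos)
  apply Nat.eq_of_mul_eq_mul_right hpos
  rw [← h, hUV]
  calc Nat.card Λ * Nat.card Λ * ∑ u : U × U,
        Nat.card {v : Dual F V × Dual F V // beta B u.1 v.2 = beta B u.2 v.1}
      = Nat.card Λ * ((∑ u : U × U,
        Nat.card {v : Dual F V × Dual F V // beta B u.1 v.2 = beta B u.2 v.1}) * Nat.card Λ) := by
        ring
    _ = _ := by rw [h2]; ring

end Count

end Pool.Agent.Lib.MP_78c6b1_al
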