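import Pool.Agent.Lib.MP_78c6b1_al.Frame
import Pool.Agent.Lib.MP_78c6b1_al.Heis

/-! Numerical effect of the operations on frames. -/

set_option autoImplicit false
set_option linter.unusedSectionVars false

namespace Pool.Agent.Lib.MP_78c6b1_al

open Finset

variable {F : Type} [Field F] [Fintype F] [DecidableEq F]

section Sums

variable {Λ : Type} [AddCommGroup Λ] [Module F Λ] [Fintype Λ]

lemma sum_ne_zero_of_inv (w : Λ →ₗ[F] F) (f : Λ → ℕ) (hf : ∀ c : F, c ≠ 0 → ∀ l, f (c • l) = f l) :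
    ∑ l ∈ univ.filter (fun l => w l ≠ 0), f l =
      (Fintype.card F - 1) * ∑ l ∈ univ.filter (fun l => w l = 1), f l := by
  classical
  rw [← sum_fiberwise_of_maps_to (s := univ.filter (fun l => w l ≠ 0)) (t := univ.erase (0 : F))
    (g := fun l => w l) (by intro l hl; simpa using hl)]
  rw [sum_congr rfl (g := fun _ => ∑ l ∈ univ.filter (fun l => w l = 1), f l)]
  · simp [card_erase_of_mem, card_univ]
  · intro c hc
    have hc0 : c ≠ 0 := by simpa using hc
    symm
    refine sum_nbij' (fun l => c • l) (fun l => c⁻¹ • l) ?_ ?_ ?_ ?_ ?_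
    · intro l hl
      have : w l = 1 := by simpa using hl
      simp [this, hc0]
    · intro l hl
      have : w l = c := (mem_filter.1 hl).2
      simp [this, hc0]
    · intro l _; simp [smul_smul, hc0]
    · intro l _; simp [smul_smul, hc0]
    · intro l _; exact (hf c hc0 l).symm

lemma dvd_sum_of_inv (f : Λ → ℤ) (hf : ∀ c : F, c ≠ 0 → ∀ l, f (c • l) = f l) (S : Finset Λ) :
    (0 : Λ) ∉ S → (∀ c : F, c ≠ 0 → ∀ l ∈ S, c • l ∈ S) →
      ((Fintype.card F : ℤ) - 1) ∣ ∑ l ∈ S, f l := by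
  classical
  induction S using Finset.strongInduction with
  | H S ih =>
    intro h0 hS
    rcases S.eq_empty_or_nonempty with rfl | ⟨l, hl⟩
    · simp
    have hl0 : l ≠ 0 := fun h => h0 (h ▸ hl)
    let O : Finset Λ := (univ.erase (0 : F)).image (fun c => c • l)
    have hO : O ⊆ S := by
      intro x hx
      obtain ⟨c, hc, rfl⟩ := mem_image.1 hx
      exact hS c (by simpa using hc) l hl
    have hlO : l ∈ O := mem_image.2 ⟨1, by simp, one_smul _ _⟩
    rw [← sum_sdiff hO]
    refine dvd_add (ih _ (sdiff_ssubset hO ⟨l, hlO⟩) (fun h => h0 (mem_sdiff.1 h).1) ?_) ?_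
    · intro c hc x hx
      obtain ⟨hx1, hx2⟩ := mem_sdiff.1 hx
      refine mem_sdiff.2 ⟨hS c hc x hx1, fun h => hx2 ?_⟩
      obtain ⟨c', hc', h'⟩ := mem_image.1 h
      have hc'0 : c' ≠ 0 := by simpa using hc'
      refine mem_image.2 ⟨c⁻¹ * c', by simp [hc, hc'0], ?_⟩
      rw [mul_smul, h', smul_smul, inv_mul_cancel₀ hc, one_smul]
    · rw [sum_image (fun a _ b _ h => smul_left_injective F hl0 h),
        sum_congr rfl (g := fun _ => f l) (fun c hc => hf c (by simpa using hc) l)]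
      rw [sum_const, card_erase_of_mem (mem_univ _), card_univ, nsmul_eq_mul,
        Nat.cast_sub Fintype.card_pos]
      exact Dvd.intro _ rfl

variable {U V : Type} [AddCommGroup U] [Module F U] [Finite U] [AddCommGroup V] [Module F V]

lemma kz_eq_pow (f : U →ₗ[F] V) : ∃ i, kz f = Fintype.card F ^ i := by
  have : Module.Finite F U := Module.Finite.of_finite
  refine ⟨Module.finrank F (LinearMap.ker f), ?_⟩
  rw [← Nat.card_eq_fintype_card, ← Module.natCard_eq_pow_finrank]
  rfl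

lemma kz_smul (f : U →ₗ[F] V) (c : F) (hc : c ≠ 0) : kz (c • f) = kz f := by
  unfold kz
  apply Nat.card_congr
  apply Equiv.subtypeEquivRight
  intro x
  simp [hc]

lemma kz_zero : kz (0 : U →ₗ[F] V) = Nat.card U := by
  unfold kz
  exact Nat.card_congr (Equiv.subtypeUnivEquiv (by simp))

lemma hall_congr (B : Λ →ₗ[F] U →ₗ[F] V) :
    (((Fintype.card F : ℤ) - 1) * ((Fintype.card F : ℤ) ^ 2 - 1)) ∣
      ((∑ l, kz (B l) ^ 2 : ℕ) : ℤ) - ((Nat.card U : ℤ) ^ 2 + Fintype.card Λ - 1) := by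
  classical
  set q : ℤ := (Fintype.card F : ℤ) with hq
  have h1 : ∀ l, (q ^ 2 - 1) ∣ (kz (B l) : ℤ) ^ 2 - 1 := by
    intro l
    obtain ⟨i, hi⟩ := kz_eq_pow (B l)
    rw [hi]
    push_cast
    rw [← pow_mul, mul_comm, pow_mul]
    simpa using sub_dvd_pow_sub_pow (q ^ 2) 1 i
  have h2 := dvd_sum_of_inv (F := F) (fun l => ((kz (B l) : ℤ) ^ 2 - 1) / (q ^ 2 - 1))
    (fun c hc l => by rw [map_smul, kz_smul _ c hc]) (univ.erase 0) (by simp)
    (fun c hc l hl => by simpa [hc] using hl)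
  have h3 : ((∑ l, kz (B l) ^ 2 : ℕ) : ℤ) - ((Nat.card U : ℤ) ^ 2 + Fintype.card Λ - 1) =
      (∑ l ∈ univ.erase (0 : Λ), ((kz (B l) : ℤ) ^ 2 - 1) / (q ^ 2 - 1)) * (q ^ 2 - 1) := by
    rw [sum_mul, sum_congr rfl (fun l _ => Int.ediv_mul_cancel (h1 l)), sum_sub_distrib,
      ← add_sum_erase univ _ (mem_univ (0 : Λ)), map_zero, kz_zero, sum_const,
      card_erase_of_mem (mem_univ _), card_univ, nsmul_eq_mul, Nat.cast_sub Fintype.card_pos]
    push_cast
    ring
  rw [h3]
  exact mul_dvd_mul_right h2 _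

lemma sum_kz_sq (B : Λ →ₗ[F] U →ₗ[F] V) [Fintype U] [DecidableEq V] (S : Finset Λ) :
    ∑ l ∈ S, kz (B l) ^ 2 =
      ∑ u : U × U, (S.filter fun l => B l u.1 = 0 ∧ B l u.2 = 0).card := by
  have h2 : ∀ l : Λ, kz (B l) ^ 2 =
      ∑ u : U × U, if B l u.1 = 0 ∧ B l u.2 = 0 then 1 else 0 := by
    intro l
    rw [kz, Nat.card_eq_fintype_card, Fintype.card_subtype, Finset.card_filter, sq,
      Finset.sum_mul_sum, Fintype.sum_prod_type]
    refine Finset.sum_congr rfl fun a _ => Finset.sum_congr rfl fun b _ => ?_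
    by_cases ha : B l a = 0 <;> by_cases hb : B l b = 0 <;> simp [ha, hb]
  simp_rw [h2, card_filter]
  exact Finset.sum_comm

lemma coset_le (w : Λ →ₗ[F] F) (B : Λ →ₗ[F] U →ₗ[F] V) :
    ∑ l ∈ univ.filter (fun l => w l = 1), kz (B l) ^ 2 ≤
      ∑ l ∈ univ.filter (fun l => w l = 0), kz (B l) ^ 2 := by
  classical
  have := Fintype.ofFinite U
  rw [sum_kz_sq, sum_kz_sq]
  refine sum_le_sum fun u _ => ?_
  rcases ((univ.filter (fun l => w l = 1)).filter
    fun l => B l u.1 = 0 ∧ B l u.2 = 0).eq_empty_or_nonempty with h | ⟨l0, hl0⟩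
  · rw [h]; simp
  · refine card_le_card_of_injOn (fun l => l - l0) ?_ ?_
    · intro l hl
      simp only [coe_filter, mem_filter, mem_univ, true_and, Set.mem_ofPred_eq] at hl hl0 ⊢
      simp [hl.1, hl.2.1, hl.2.2, hl0.1, hl0.2.1, hl0.2.2]
    · intro a _ b _ h
      exact sub_left_injective h

end Sums

lemma cover (g W R : ℕ) (h : g ≤ R + 1) : ∀ N ≤ g * W + R, ∃ i ≤ W, ∃ j ≤ R, N = g * i + j := by
  induction W with
  | zero => intro N hN; exact ⟨0, le_rfl, N, by simpa using hN, by simp⟩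
  | succ W ih =>
    intro N hN
    by_cases h1 : N ≤ g * W + R
    · obtain ⟨i, hi, j, hj, e⟩ := ih N h1
      exact ⟨i, hi.trans (Nat.le_succ _), j, hj, e⟩
    · refine ⟨W + 1, le_rfl, N - g * (W + 1), ?_, ?_⟩
      · omega
      · have : g * (W + 1) = g * W + g := by ring
        omega

lemma Frame.top_sum {Λ : Type} [AddCommGroup Λ] [Module F Λ] [Fintype Λ] {w : Λ →ₗ[F] F}
    {Des : Type} {T : Finset Λ} (A : Frame F Λ w Des T) (δ : Des) (e : A.V) (he : e ∈ A.D) :
    ∑ l ∈ univ.filter (fun l => w l ≠ 0), kc (A.B l) (A.E δ l + w l • e) ^ 2 =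
      (Fintype.card F - 1) * (∑ l ∈ univ.filter (fun l => w l = 1), kz (A.B l) ^ 2 +
        (Fintype.card F ^ 2 - 1) * (T.filter fun l => A.ψ l e = 0).card) := by
  classical
  rw [sum_ne_zero_of_inv w]
  swap
  · intro c hc l
    rw [map_smul, map_smul, map_smul, smul_eq_mul, mul_smul, ← smul_add, kc_smul _ _ c hc]
  congr 1
  have hT : (T.filter fun l => A.ψ l e = 0) =
      (univ.filter (fun l => w l = 1)).filter (fun l => l ∈ T ∧ A.ψ l e = 0) := by
    ext l
    simp only [mem_filter, mem_univ, true_and]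
    exact ⟨fun h => ⟨A.wT l h.1, h⟩, fun h => h.2⟩
  rw [hT, card_filter, mul_sum, ← sum_add_distrib]
  refine sum_congr rfl fun l hl => ?_
  have hw : w l = 1 := (mem_filter.1 hl).2
  rw [hw, one_smul]
  by_cases h : l ∈ T
  · have hk := kz_of_inj (A.B l) (A.inj l h)
    have hψ : A.ψ l (A.E δ l + e) = A.ψ l e := by rw [map_add, A.ψE l h, zero_add]
    by_cases h2 : A.ψ l e = 0
    · rw [kc_of_mem _ _ ((A.rng l h _).2 (hψ.trans h2)), hk, if_pos ⟨h, h2⟩]
      have : 1 ≤ Fintype.card F ^ 2 := Nat.one_le_pow _ _ Fintype.card_pos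
      simp only [one_mul, one_pow, mul_one]
      omega
    · rw [kc_of_not_mem _ _ (fun h' => h2 (hψ.symm.trans ((A.rng l h _).1 h'))),
        if_neg (fun h' => h2 h'.2)]
      simp
  · rw [kc_of_not_mem _ _ (A.bad l hw h δ e he), if_neg (fun h' => h h'.1)]
    simp

/-- The numerical data carried by a frame. -/
def Real (F : Type) [Field F] [Fintype F] [DecidableEq F] (A0 A1 g W R d t : ℕ) : Prop :=
  ∃ (Λ : Type) (_ : AddCommGroup Λ) (_ : Module F Λ) (_ : Fintype Λ) (w : Λ →ₗ[F] F)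
    (Des : Type) (T : Finset Λ) (A : Frame F Λ w Des T),
    Fintype.card Λ = Fintype.card F ^ t ∧ Nat.card A.U = Fintype.card F ^ d ∧
    Nat.card A.V = Fintype.card F ^ (d + 1) ∧ T.card = R ∧
    (∀ N ≤ R, ∃ e ∈ A.D, (T.filter fun l => A.ψ l e = 0).card = N) ∧
    (∀ i ≤ W, ∃ δ, ∑ l ∈ univ.filter (fun l => w l = 0), A.low δ l ^ 2 =
      A0 + (Fintype.card F - 1) * (Fintype.card F ^ 2 - 1) * (g * i)) ∧
    ∑ l ∈ univ.filter (fun l => w l = 1), kz (A.B l) ^ 2 = A1

/-- the starting frame -/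
def initFrame (F : Type) [Field F] [Finite F] : Frame F F LinearMap.id Unit {1} where
  U := Unit
  V := F
  B := 0
  E _ := 0
  D := ⊤
  r := 1
  ψ _ := LinearMap.id
  wT := by simp
  r_mem := trivial
  bad := by intro l hl hT; exact absurd (by simpa using hl) hT
  inj := fun _ _ _ _ => rfl
  rng := by intro l _ v; simp
  ψr := by simp
  ψE := by simp

lemma real_init : ∃ A1, Real F (Fintype.card F ^ 2) A1 0 0 1 0 1 := by
  refine ⟨_, F, inferInstance, inferInstance, inferInstance, LinearMap.id, Unit, {1}, initFrame F,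
    by simp, ?_, ?_, by simp, ?_, ?_, rfl⟩
  · show Nat.card Unit = _
    simp
  · show Nat.card F = _
    simp
  · intro N hN
    interval_cases N
    · refine ⟨(1 : F), trivial, ?_⟩
      rw [card_eq_zero, filter_eq_empty_iff]
      intro l _
      exact one_ne_zero (α := F)
    · refine ⟨0, trivial, ?_⟩
      rw [filter_true_of_mem (fun l _ => map_zero _), card_singleton]
  · intro i _
    refine ⟨(), ?_⟩
    have : univ.filter (fun l : F => (LinearMap.id : F →ₗ[F] F) l = 0) = {0} := by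
      ext l; simp
    rw [this, sum_singleton, Frame.low, map_zero, map_zero, kc_of_mem _ _ (Submodule.zero_mem _),
      kz_zero]
    have : Nat.card (initFrame F).U = 1 := by
      show Nat.card Unit = _
      simp
    rw [this]; simp

variable {A0 A1 g W R d t : ℕ}

lemma Real.le (h : Real F A0 A1 g W R d t) : A1 ≤ A0 := by
  obtain ⟨Λ, _, _, _, w, Des, T, A, -, -, -, -, -, h5, h6⟩ := h
  obtain ⟨δ, hδ⟩ := h5 0 (Nat.zero_le _)
  simp only [mul_zero, add_zero] at hδ
  rw [← h6, ← hδ]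
  refine (coset_le w A.B).trans (sum_le_sum fun l _ => ?_)
  exact Nat.pow_le_pow_left (kz_le_kc _ _) 2

lemma Real.priv (h : Real F A0 A1 g W R d t) :
    Real F (Fintype.card F ^ 2 * A0) A1 (Fintype.card F ^ 2 * g) W R (d + 1) t := by
  obtain ⟨Λ, _, _, _, w, Des, T, A, h1, h2, h3, hR, h4, h5, h6⟩ := h
  refine ⟨Λ, inferInstance, inferInstance, inferInstance, w, Des, T, A.node w, h1, ?_, ?_, hR,
    ?_, ?_, ?_⟩
  · rw [Frame.node_cardU, h2, pow_succ]
  · rw [Frame.node_cardV, h3, pow_succ _ (d + 1)]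
  · intro N hN
    obtain ⟨e, he, hc⟩ := h4 N hN
    refine ⟨(e, 0), ⟨he, trivial⟩, ?_⟩
    rw [← hc]
    congr 1
    refine filter_congr fun l hl => ?_
    rw [Frame.node_ψ, A.wT l hl]
    simp
  · intro i hi
    obtain ⟨δ, hδ⟩ := h5 i hi
    refine ⟨δ, ?_⟩
    rw [sum_congr rfl (g := fun l => Fintype.card F ^ 2 * A.low δ l ^ 2), ← mul_sum, hδ]
    · ring
    · intro l hl
      have hw : w l = 0 := (mem_filter.1 hl).2
      rw [Frame.node_low _ _ _ _ hw, if_pos hw]; ring
  · rw [← h6]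
    exact sum_congr rfl fun l hl => by rw [Frame.node_kz _ _ (mem_filter.1 hl).2]

lemma exists_list (ρ : ℕ) (hρ : Fintype.card F - 1 ≤ ρ) :
    ∃ cs : List F, cs.length = ρ ∧ ∀ y, y ∈ cs ↔ y ≠ 0 := by
  refine ⟨(univ.erase (0 : F)).toList ++ List.replicate (ρ - (Fintype.card F - 1)) 1, ?_, ?_⟩
  · simp [card_erase_of_mem]; omega
  · intro y
    simp only [List.mem_append, mem_toList, mem_erase, mem_univ, and_true, List.mem_replicate]
    constructor
    · rintro (h | ⟨-, rfl⟩)
      · exact h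
      · exact one_ne_zero
    · exact fun h => Or.inl h

lemma Real.var (h : Real F A0 A1 g W R d t) (ρ : ℕ) (hρ : Fintype.card F - 1 ≤ ρ) :
    ∃ A1', Real F ((Fintype.card F ^ (2 * ρ) + (Fintype.card F - 1)) * A0) A1'
      ((Fintype.card F ^ (2 * ρ) + (Fintype.card F - 1)) * g) W (Fintype.card F * R)
      (d + ρ) (t + 1) := by
  classical
  obtain ⟨Λ, _, _, _, w, Des, T, A, h1, h2, h3, hR, h4, h5, h6⟩ := h
  obtain ⟨cs, hlen, hcs⟩ := exists_list (F := F) ρ hρ
  refine ⟨_, Λ × F, inferInstance, inferInstance, inferInstance, w ∘ₗ LinearMap.fst F Λ F, Des,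
    T ×ˢ univ, A.pull.nodes (cs.map fun c => LinearMap.snd F Λ F - c • (w ∘ₗ LinearMap.fst F Λ F)),
    ?_, ?_, ?_, ?_, ?_, ?_, rfl⟩
  · rw [Fintype.card_prod, h1, pow_succ]
  · rw [Frame.nodes_cardU, List.length_map, hlen, pow_add, ← h2]; rfl
  · rw [Frame.nodes_cardV, List.length_map, hlen, add_right_comm, pow_add, ← h3]; rfl
  · rw [card_product, card_univ, hR, mul_comm]
  · intro N hN
    have hq : 1 ≤ Fintype.card F := Fintype.card_pos
    obtain ⟨N1, hN1, N0, hN0, hNN⟩ := cover R (Fintype.card F - 1) R (Nat.le_succ _) N (by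
      have : R * (Fintype.card F - 1) + R = Fintype.card F * R := by
        obtain ⟨k, hk⟩ := Nat.exists_eq_add_of_le hq
        rw [hk]; simp; ring
      omega)
    obtain ⟨Z, hZ, hZc⟩ := exists_subset_card_eq (s := univ.erase (0 : F)) (n := N1)
      (by rw [card_erase_of_mem (mem_univ _), card_univ]; exact hN1)
    obtain ⟨v', hv'⟩ := A.pull.nodes_target (LinearMap.snd F Λ F) cs (fun y => y ∈ Z) (fun _ => 0)
    obtain ⟨e, he, hc⟩ := h4 N0 hN0
    obtain ⟨e', he', hψ⟩ := hv' (e + v' 0 • A.r) (A.D.add_mem he (A.D.smul_mem _ A.r_mem))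
    refine ⟨e', he', ?_⟩
    rw [filter_congr hψ, card_filter, sum_product_right, ← add_sum_erase univ _ (mem_univ (0 : F)),
      hNN, add_comm]
    congr 1
    · rw [sum_congr rfl (g := fun y => if y ∈ Z then R else 0)]
      · rw [← sum_filter, filter_mem_eq_inter, inter_eq_right.2 hZ, sum_const, hZc, smul_eq_mul,
          mul_comm]
      · intro y hy
        have hy0 : y ∈ cs := (hcs y).2 (by simpa using hy)
        by_cases hyZ : y ∈ Z <;> simp [hy0, hyZ, hR]
    · rw [← hc, card_filter]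
      refine sum_congr rfl fun l hl => ?_
      have h0 : (0 : F) ∉ cs := fun h => (hcs 0).1 h rfl
      have : A.pull.ψ (l, 0) (e + v' 0 • A.r) = A.ψ l e + v' 0 := by
        show A.ψ l (e + v' 0 • A.r) = _
        rw [map_add, map_smul, A.ψr l hl, smul_eq_mul, mul_one]
      simp [h0, this]
  · intro i hi
    obtain ⟨δ, hδ⟩ := h5 i hi
    refine ⟨δ, ?_⟩
    have hS : univ.filter (fun l : Λ × F => (w ∘ₗ LinearMap.fst F Λ F) l = 0) =
        (univ.filter (fun l => w l = 0)) ×ˢ univ := by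
      ext l; simp
    rw [hS, sum_product, sum_congr rfl
      (g := fun l => (Fintype.card F ^ (2 * ρ) + (Fintype.card F - 1)) * A.low δ l ^ 2),
      ← mul_sum, hδ]
    · ring
    · intro l hl
      have hw : w l = 0 := (mem_filter.1 hl).2
      rw [← add_sum_erase univ _ (mem_univ (0 : F)), Frame.nodes_low_all _ _ _ (l, 0) hw,
        sum_congr rfl (g := fun _ => A.low δ l ^ 2), sum_const,
        card_erase_of_mem (mem_univ _), card_univ, List.length_map, hlen]
      · show (A.low δ l * _) ^ 2 + _ = _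
        rw [smul_eq_mul]; ring
      · intro y hy
        rw [Frame.nodes_low_none _ _ _ (l, y) hw]
        · rfl
        · intro a ha
          obtain ⟨c, -, rfl⟩ := List.mem_map.1 ha
          simpa [hw] using hy
      · intro a ha
        obtain ⟨c, -, rfl⟩ := List.mem_map.1 ha
        simp [hw]

lemma Real.ctrl (h : Real F A0 A1 g W R d t)
    (hg : Fintype.card F ^ (2 * (Fintype.card F - 1)) * g ≤ R + 1) :
    ∃ A1', Real F (Fintype.card F ^ (2 * (Fintype.card F - 1)) * A0 + (Fintype.card F - 1) * A1)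
      A1' 1 (Fintype.card F ^ (2 * (Fintype.card F - 1)) * g * W + R) R
      (d + (Fintype.card F - 1)) (t + 1) := by
  classical
  obtain ⟨Λ, _, _, _, w, Des, T, A, h1, h2, h3, hR, h4, h5, h6⟩ := h
  refine ⟨_, Λ × F, inferInstance, inferInstance, inferInstance, LinearMap.snd F Λ F, Des × A.D,
    T ×ˢ {1}, A.ctrl, ?_, ?_, ?_, ?_, ?_, ?_, rfl⟩
  · rw [Fintype.card_prod, h1, pow_succ]
  · rw [Frame.ctrl_cardU, pow_add, h2]
  · rw [Frame.ctrl_cardV, add_right_comm, pow_add, h3]
  · rw [card_product, card_singleton, hR, mul_one]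
  · intro N hN
    obtain ⟨e, he, hc⟩ := h4 N hN
    refine ⟨(e, 0), ⟨he, rfl⟩, ?_⟩
    rw [← hc, card_filter, card_filter, sum_product_right, sum_singleton]
    rfl
  · intro N hN
    obtain ⟨i, hi, j, hj, hNN⟩ := cover _ W R hg N hN
    obtain ⟨δ, hδ⟩ := h5 i hi
    obtain ⟨e, he, hc⟩ := h4 j hj
    refine ⟨(δ, ⟨e, he⟩), ?_⟩
    have hS : univ.filter (fun l : Λ × F => (LinearMap.snd F Λ F) l = 0) =
        (univ : Finset Λ) ×ˢ {0} := by
      ext l
      simp only [mem_filter, mem_univ, true_and, mem_product, mem_singleton, LinearMap.snd_apply]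
    rw [hS, sum_product_right, sum_singleton, ← sum_filter_add_sum_filter_not univ (fun l => w l = 0),
      sum_congr rfl (g := fun l => Fintype.card F ^ (2 * (Fintype.card F - 1)) * A.low δ l ^ 2),
      ← mul_sum, hδ, sum_congr rfl (g := fun l => kc (A.B l) (A.E δ l + w l • e) ^ 2),
      A.top_sum δ e he, h6, hc, hNN]
    · ring
    · intro l hl
      have hw : w l ≠ 0 := (mem_filter.1 hl).2
      rw [Frame.ctrl_low, if_neg hw, mul_one]
    · intro l hl
      have hw : w l = 0 := (mem_filter.1 hl).2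
      rw [Frame.ctrl_low, if_pos hw, hw, zero_smul, add_zero, Frame.low]
      ring

lemma Real.final (h : Real F A0 A1 g W R d t) (hg : g ≤ R + 1) (N : ℕ) (hN : N ≤ g * W + R) :
    ∃ (G : Type) (_ : Group G) (_ : Finite G),
      Nat.card G = Fintype.card F ^ (2 * (d + 1) + t) ∧
      Nat.card (ConjClasses G) = A0 + (Fintype.card F - 1) * A1 +
        (Fintype.card F - 1) * (Fintype.card F ^ 2 - 1) * N ∧
      (((Fintype.card F : ℤ) - 1) * ((Fintype.card F : ℤ) ^ 2 - 1)) ∣
        (Nat.card (ConjClasses G) : ℤ) -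
          ((Fintype.card F : ℤ) ^ (2 * (d + 1)) + (Fintype.card F : ℤ) ^ t - 1) := by
  classical
  obtain ⟨Λ, _, _, _, w, Des, T, A, h1, h2, h3, hR, h4, h5, h6⟩ := h
  obtain ⟨i, hi, j, hj, hNN⟩ := cover _ W R hg N hN
  obtain ⟨δ, hδ⟩ := h5 i hi
  obtain ⟨e, he, hc⟩ := h4 j hj
  let Bf : Λ →ₗ[F] (A.U × F) →ₗ[F] A.V :=
    LinearMap.mk₂ F (fun l x => A.B l x.1 + x.2 • (A.E δ l + w l • e))
      (fun l l' x => by simp only [map_add, LinearMap.add_apply]; module)
      (fun c l x => by simp only [map_smul, LinearMap.smul_apply, smul_eq_mul]; module)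
      (fun l x x' => by simp only [Prod.fst_add, Prod.snd_add, map_add]; module)
      (fun c l x => by simp only [Prod.smul_fst, Prod.smul_snd, map_smul, smul_eq_mul]; module)
  have hU : Nat.card (A.U × F) = Fintype.card F ^ (d + 1) := by
    rw [Nat.card_prod, h2, Nat.card_eq_fintype_card, pow_succ]
  obtain ⟨G, iG, fG, hG1, hG2⟩ := exists_group Bf (hU.trans h3.symm)
  refine ⟨G, iG, fG, ?_, ?_, ?_⟩
  · rw [hG1, hU, h3, Nat.card_eq_fintype_card, h1]; ring
  · have hk : ∑ l, Nat.card {u // Bf l u = 0} ^ 2 =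
        ∑ l, kc (A.B l) (A.E δ l + w l • e) ^ 2 := rfl
    rw [hG2, hk, ← sum_filter_add_sum_filter_not univ (fun l => w l = 0), A.top_sum δ e he, h6, hc,
      sum_congr rfl (g := fun l => A.low δ l ^ 2), hδ, hNN]
    · ring
    · intro l hl
      have hw : w l = 0 := (mem_filter.1 hl).2
      rw [hw, zero_smul, add_zero, Frame.low]
  · have := hall_congr Bf
    rw [hU, h1] at this
    rw [hG2, mul_comm 2 (d + 1), pow_mul]
    push_cast at this ⊢
    exact this

end Pool.Agent.Lib.MP_78c6b1_al
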