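import Pool.Agent.Lib.MP_78c6b1_al.TwoTab

/-! Certificates: families of reachable states. -/

set_option autoImplicit false

namespace Pool.Agent.Lib.MP_78c6b1_al.Two

/-- bits of D from position o, width w -/
noncomputable def bx (D o w : ℕ) : ℕ := Nat.mod (Nat.shiftRight D o) (Nat.pow 2 w)

/-- field number i of width w -/
noncomputable def fx (D w i : ℕ) : ℕ := bx D (Nat.mul w i) w

/-- bounded conjunction -/
noncomputable def allb (n : ℕ) (f : ℕ → Bool) : Bool := Nat.rec true (fun i acc => and (f i) acc) n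

lemma allb_spec {n : ℕ} {f : ℕ → Bool} (h : allb n f = true) : ∀ i < n, f i = true := by
  induction n with
  | zero => intro i hi; omega
  | succ n ih =>
    have h' : (f n && allb n f) = true := h
    rw [Bool.and_eq_true] at h'
    intro i hi
    rcases Nat.lt_succ_iff_lt_or_eq.1 hi with h1 | h1
    · exact ih h'.2 i h1
    · rw [h1]; exact h'.1

/-- conjunction over four bits -/
noncomputable def all16 (f : Bool → Bool → Bool → Bool → Bool) : Bool :=
  f false false false false && f false false false true && f false false true false &&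
  f false false true true && f false true false false && f false true false true &&
  f false true true false && f false true true true && f true false false false &&
  f true false false true && f true false true false && f true false true true &&
  f true true false false && f true true false true && f true true true false &&
  f true true true true

lemma all16_spec {f : Bool → Bool → Bool → Bool → Bool} (h : all16 f = true) (a b c d : Bool) :
    f a b c d = true := by
  simp only [all16, Bool.and_eq_true] at h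
  cases a <;> cases b <;> cases c <;> cases d <;> tauto

/-- table of the 23 shapes and their potentials -/
def TT : ℕ := 591694109515515298550442877585572437890834479063118279911319368749972400349149800445583623332453129563879858786957938367584077862281960652031330537680154995607796496248305886212952827245868702652692304541430709729099840967098843173470044564465325532889471954028392612293509632

/-- entries of the table -/
noncomputable def fld (g i : ℕ) : ℕ := fx TT 8 (Nat.add (Nat.mul 5 g) i)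

/-- weight of a shape -/
noncomputable def gs (g : ℕ) : ℕ := fld g 0 + fld g 1 + fld g 2

/-- the six permutations -/
noncomputable def pm (k i : ℕ) : ℕ := fx 19484665956 2 (Nat.add (Nat.mul 3 k) i)

/-- permuted entries -/
noncomputable def pf (g k i : ℕ) : ℕ := fld g (pm k i)

lemma R.perm {m x k : ℕ} (hk : k < 6) (f : ℕ → ℕ) :
    R m x (f 0) (f 1) (f 2) ↔ R m x (f (pm k 0)) (f (pm k 1)) (f (pm k 2)) := by
  have e : ∀ k < 6, (pm k 0 = 0 ∧ pm k 1 = 1 ∧ pm k 2 = 2) ∨ (pm k 0 = 1 ∧ pm k 1 = 0 ∧ pm k 2 = 2) ∨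
      (pm k 0 = 2 ∧ pm k 1 = 1 ∧ pm k 2 = 0) ∨ (pm k 0 = 0 ∧ pm k 1 = 2 ∧ pm k 2 = 1) ∨
      (pm k 0 = 1 ∧ pm k 1 = 2 ∧ pm k 2 = 0) ∨ (pm k 0 = 2 ∧ pm k 1 = 0 ∧ pm k 2 = 1) := by
    decide +kernel
  rcases e k hk with ⟨a, b, c⟩ | ⟨a, b, c⟩ | ⟨a, b, c⟩ | ⟨a, b, c⟩ | ⟨a, b, c⟩ | ⟨a, b, c⟩ <;>
    rw [a, b, c]
  · exact ⟨R.s12, R.s12⟩
  · exact ⟨R.s13, R.s13⟩
  · exact ⟨fun h => h.s12.s13.s12, fun h => h.s12.s13.s12⟩
  · exact ⟨fun h => h.s13.s12, fun h => h.s12.s13⟩
  · exact ⟨fun h => h.s12.s13, fun h => h.s13.s12⟩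

/-- state of shape g with scale w -/
def RG (m x w g : ℕ) : Prop := R m x (w * fld g 0) (w * fld g 1) (w * fld g 2)

lemma RG.perm {m x w g k : ℕ} (hk : k < 6) :
    RG m x w g ↔ R m x (w * pf g k 0) (w * pf g k 1) (w * pf g k 2) :=
  R.perm hk (fun i => w * fld g i)

/-- a window of reachable states for one shape -/
def FamG (m L H i g : ℕ) : Prop :=
  ∀ x, x % 2 = 0 → (x + gs g) % 3 = 2 ^ (m + 9 * i) % 3 → 77 ^ i * L ≤ x + 4 ^ i * fld g 3 →
    x + 4 ^ i * fld g 4 ≤ 77 ^ i * H → RG (m + 9 * i) x (2 * 4 ^ i) g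

/-- a window of reachable states -/
def Fam (m L H i : ℕ) : Prop := ∀ g < 23, FamG m L H i g

/-- check of one transition -/
noncomputable def trB (g r u k k' ν code : ℕ) : Bool :=
  all16 (fun a b c d => Nat.beq (cv 6 3 code 0 a b c d) (st 77 0 0 0 a b c d) &&
    Nat.beq (pf u k 0 * cv 6 3 code 1 a b c d + pf u k 1 * cv 6 3 code 2 a b c d +
      pf u k 2 * cv 6 3 code 3 a b c d)
      (st ν (4 * pf g k' 0) (4 * pf g k' 1) (4 * pf g k' 2) a b c d)) &&
  (Nat.ble u 22 && Nat.ble k 5 && Nat.ble k' 5 && Nat.beq (2 * ν % 77) r &&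
    Nat.beq ((2 * ν + gs g) % 3) (2 * gs u % 3) && Nat.ble (2 * ν + 4 * fld g 3) (77 * fld u 3) &&
    Nat.ble (77 * fld u 4) (2 * ν + 4 * fld g 4) && Nat.ble (fld u 3) 60)

/-- unpacking -/
noncomputable def trE (g r d : ℕ) : Bool :=
  trB g r (bx d 0 5) (bx d 5 3) (bx d 8 3) (bx d 11 13) (Nat.shiftRight d 24)

/-- check of all transitions into shape g -/
noncomputable def trD (g D : ℕ) : Bool := allb 77 (fun r => trE g r (fx D 112 r))

/-- transitions into g exist for all residues -/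
def Tr (g : ℕ) : Prop := ∀ r < 77, ∃ u k k' ν code, trB g r u k k' ν code = true

lemma Tr.of {g : ℕ} (D : ℕ) (h : trD g D = true) : Tr g :=
  fun r hr => ⟨_, _, _, _, _, allb_spec h r hr⟩

lemma trB_step {g r u k k' ν code : ℕ} (h : trB g r u k k' ν code = true) {M x w : ℕ}
    (hx : RG M x w u) : RG (M + 9) (77 * x + w * ν) (4 * w) g := by
  simp only [trB, Bool.and_eq_true, Nat.ble_eq, Nat.beq_eq] at h
  obtain ⟨h0, ⟨⟨⟨⟨⟨⟨⟨-, hk⟩, hk'⟩, -⟩, -⟩, -⟩, -⟩, -⟩⟩ := h
  rw [RG.perm (k := k') (by omega)]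
  have := R.step 6 3 code ((RG.perm (k := k) (by omega)).1 hx) (by omega)
  unfold R
  convert this using 1
  funext a b c d
  have h1 := all16_spec h0 a b c d
  simp only [Bool.and_eq_true, Nat.beq_eq] at h1
  obtain ⟨h1, h2⟩ := h1
  have e : st (77 * x + w * ν) (4 * w * pf g k' 0) (4 * w * pf g k' 1) (4 * w * pf g k' 2) a b c d =
      x * st 77 0 0 0 a b c d +
        w * st ν (4 * pf g k' 0) (4 * pf g k' 1) (4 * pf g k' 2) a b c d := by
    unfold st; split_ifs <;> ring
  rw [e, ← h1, ← h2]; ring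

lemma Fam.succ (hT : ∀ g < 23, Tr g) {m L H i : ℕ} (hL : 60 ≤ L) (h : Fam m L H i) :
    Fam m L H (i + 1) := by
  intro g hg x h2 h3 hlo hhi
  have hc : Nat.Coprime (4 ^ i) 77 := Nat.Coprime.pow_left i (by norm_num)
  obtain ⟨r, hr, hr'⟩ := Nat.exists_mul_mod_eq_of_coprime x hc (by norm_num)
  obtain ⟨u, k, k', ν, code, hB⟩ := hT g hg r hr
  have hB' := hB
  simp only [trB, Bool.and_eq_true, Nat.ble_eq, Nat.beq_eq] at hB'
  obtain ⟨-, ⟨⟨⟨⟨⟨⟨⟨hu, -⟩, -⟩, e1⟩, e2⟩, e3⟩, e4⟩, e5⟩⟩ := hB'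
  have p1 : 4 ^ i ≤ 77 ^ i := Nat.pow_le_pow_left (by norm_num) i
  have p3 : 4 ^ i % 3 = 1 := by rw [Nat.pow_mod]; simp
  have p4 : 2 ^ (m + 9 * (i + 1)) % 3 = 2 * 2 ^ (m + 9 * i) % 3 := by
    rw [show m + 9 * (i + 1) = m + 9 * i + 9 by ring, pow_add]; omega
  rw [pow_succ, pow_succ] at hlo hhi
  generalize hw : 4 ^ i = w at *
  generalize hW : 77 ^ i = W at *
  have q1 : w * (2 * ν + 4 * fld g 3) ≤ w * (77 * fld u 3) := Nat.mul_le_mul_left _ e3
  have q2 : w * (77 * fld u 4) ≤ w * (2 * ν + 4 * fld g 4) := Nat.mul_le_mul_left _ e4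
  have q3 : w * fld u 3 ≤ W * L := Nat.mul_le_mul p1 (by omega)
  have q4 : w * (2 * ν) ≤ x := by nlinarith
  have q5 : w * (2 * ν) % 77 = x % 77 := by
    rw [← hr', ← e1, Nat.mul_mod_mod]
  obtain ⟨y, hy⟩ : ∃ y, x = 77 * y + w * (2 * ν) := ⟨(x - w * (2 * ν)) / 77, by omega⟩
  have q6 : w * (2 * ν) % 3 = 2 * ν % 3 := by rw [Nat.mul_mod, p3]; simp
  have q7 : w * (2 * ν) % 2 = 0 := by rw [mul_left_comm]; omega
  have hR := h u (by omega) y (by omega) (by omega) (by rw [hw, hW]; nlinarith)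
    (by rw [hw, hW]; nlinarith)
  rw [hw] at hR
  have := trB_step hB hR
  convert this using 1
  · ring
  · rw [hy]; ring
  · rw [pow_succ, hw]; ring

lemma Fam.all (hT : ∀ g < 23, Tr g) {m L H : ℕ} (hL : 60 ≤ L) (h : Fam m L H 0) (i : ℕ) :
    Fam m L H i := by
  induction i with
  | zero => exact h
  | succ i ih => exact ih.succ hT hL

/-- check of one seed -/
noncomputable def sdB (m g x n k code : ℕ) : Bool :=
  all16 (fun a b c d => Nat.beq (cv n (m - 2 - n) code 0 a b c d)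
    (st x (2 * pf g k 0) (2 * pf g k 1) (2 * pf g k 2) a b c d)) &&
  (Nat.ble 2 n && Nat.ble (n + 2) m && Nat.ble k 5)

lemma sdB_spec {m g x n k code : ℕ} (h : sdB m g x n k code = true) : RG m x 2 g := by
  simp only [sdB, Bool.and_eq_true, Nat.ble_eq] at h
  obtain ⟨h0, ⟨h1, h2⟩, h3⟩ := h
  rw [RG.perm (k := k) (by omega)]
  have := R.step n (m - 2 - n) code R_triv h1
  unfold R
  convert this using 1
  · omega
  · funext a b c d
    have h1 := all16_spec h0 a b c d
    simp only [Nat.beq_eq] at h1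
    rw [← h1]; ring

/-- unpacking -/
noncomputable def sdE (m g x d : ℕ) : Bool := sdB m g x (bx d 0 4) (bx d 4 3) (Nat.shiftRight d 7)

/-- check of all seeds of shape g -/
noncomputable def sdD (m L H g x0 len D : ℕ) : Bool :=
  allb len (fun j => sdE m g (x0 + 6 * j) (fx D 256 j)) &&
  (Nat.beq (x0 % 2) 0 && Nat.beq ((x0 + gs g) % 3) (2 ^ m % 3) &&
    Nat.ble (x0 + fld g 3) (L + 5) && Nat.ble (H + 1) (x0 + 6 * len + fld g 4))

lemma FamG.of {m L H g : ℕ} (x0 len D : ℕ) (h : sdD m L H g x0 len D = true) :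
    FamG m L H 0 g := by
  simp only [sdD, Bool.and_eq_true, Nat.ble_eq, Nat.beq_eq] at h
  obtain ⟨h0, ⟨⟨h1, h2⟩, h3⟩, h4⟩ := h
  intro x e1 e2 e3 e4
  simp only [mul_zero, add_zero, pow_zero, one_mul, mul_one] at *
  obtain ⟨j, rfl⟩ : ∃ j, x = x0 + 6 * j := ⟨(x - x0) / 6, by omega⟩
  exact sdB_spec (allb_spec h0 j (by omega))

end Pool.Agent.Lib.MP_78c6b1_al.Two
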