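import Pool.Agent.Lib.MP_78c6b1_al.TwoChk

/-! Certificates: closings and coverings. -/

set_option autoImplicit false

namespace Pool.Agent.Lib.MP_78c6b1_al.Two

/-- the part of the class number fixed by the order -/
def cc (M : ℕ) : ℕ := 3 * (M / 2) + 2 ^ (M % 2)

/-- size added by a closing -/
noncomputable def eD (e : ℕ) : ℕ := bx e 0 4 + bx e 4 4
/-- multiplier of a closing -/
noncomputable def eA (e : ℕ) : ℕ := bx e 8 16
/-- weights of a closing -/
noncomputable def eG (e g k : ℕ) : ℕ :=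
  pf g k 0 * bx e 24 16 + pf g k 1 * bx e 40 16 + pf g k 2 * bx e 56 16

/-- the closing described by e exists -/
def Clo (e : ℕ) : Prop := ∀ M x u1 u2 u3, R M x u1 u2 u3 → ∀ a,
  x * eA e + u1 * bx e 24 16 + u2 * bx e 40 16 + u3 * bx e 56 16 = cc (M + eD e) + 3 * a → Att a

/-- check of one closing -/
noncomputable def clB (e code : ℕ) : Bool :=
  Nat.beq (cl (bx e 0 4) (bx e 4 4) code 0) (eA e) &&
  Nat.beq (cl (bx e 0 4) (bx e 4 4) code 1) (bx e 24 16) &&
  Nat.beq (cl (bx e 0 4) (bx e 4 4) code 2) (bx e 40 16) &&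
  Nat.beq (cl (bx e 0 4) (bx e 4 4) code 3) (bx e 56 16)

lemma clB_spec {e code : ℕ} (h : clB e code = true) : Clo e := by
  simp only [clB, Bool.and_eq_true, Nat.beq_eq] at h
  obtain ⟨⟨⟨h0, h1⟩, h2⟩, h3⟩ := h
  intro M x u1 u2 u3 hR a ha
  refine R.close (bx e 0 4) (bx e 4 4) code hR a ?_
  rw [h0, h1, h2, h3]
  exact ha

lemma Clo.rg {e M x w g k a : ℕ} (h : Clo e) (hk : k < 6) (hR : RG M x w g)
    (ha : x * eA e + w * eG e g k = cc (M + eD e) + 3 * a) : Att a := by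
  refine h M x _ _ _ ((RG.perm hk).1 hR) a ?_
  rw [← ha]; unfold eG; ring

/-- the first J closings of the table exist -/
def Clos (CT J : ℕ) : Prop := ∀ j < J, Clo (fx CT 72 j)

/-- check of a block of closings -/
noncomputable def clD (CT j0 len D : ℕ) : Bool :=
  allb len (fun i => clB (fx CT 72 (j0 + i)) (fx D 256 i))

lemma Clos.zero (CT : ℕ) : Clos CT 0 := fun j hj => by omega

lemma Clos.add {CT j0 : ℕ} (h0 : Clos CT j0) (len D : ℕ) (h : clD CT j0 len D = true) :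
    Clos CT (j0 + len) := by
  intro j hj
  by_cases h1 : j < j0
  · exact h0 j h1
  · obtain ⟨i, rfl⟩ := Nat.exists_eq_add_of_le (not_lt.1 h1)
    exact clB_spec (allb_spec h i (by omega))

/-- fields of a type -/
noncomputable def yD (y : ℕ) : ℕ := bx y 0 8
/-- fields of a type -/
noncomputable def yT (y : ℕ) : ℕ := bx y 8 8
/-- fields of a type -/
noncomputable def yA (y : ℕ) : ℕ := bx y 16 16
/-- fields of a type -/
noncomputable def y1 (y : ℕ) : ℕ := bx y 32 24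
/-- fields of a type -/
noncomputable def y2 (y : ℕ) : ℕ := bx y 56 24

/-- check of one residue -/
noncomputable def tyB (y r e g k : ℕ) : Bool :=
  Nat.ble g 22 && Nat.ble k 5 && Nat.beq (eD e) (yD y) && Nat.beq (eA e) (yT y * yA y) &&
  Nat.beq (2 * eG e g k % yA y) r && Nat.beq (2 * eG e g k % (2 * yT y)) 0 &&
  Nat.beq (2 * eG e g k % 3) (eA e * gs g % 3) &&
  Nat.ble (2 * eG e g k) (eA e * fld g 3 + y1 y) && Nat.ble (eA e * fld g 4) (2 * eG e g k + y2 y) &&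
  Nat.ble (fld g 3) 60

/-- unpacking -/
noncomputable def tyE (CT J y r w : ℕ) : Bool :=
  Nat.ble (bx w 0 10 + 1) J && tyB y r (fx CT 72 (bx w 0 10)) (bx w 10 5) (bx w 15 3)

/-- check of a type -/
noncomputable def tyD (CT J y W : ℕ) : Bool :=
  allb (yA y) (fun r => tyE CT J y r (fx W 18 r)) &&
  (Nat.beq (yA y % 2) 1 && Nat.beq (4 % (2 * yT y)) 0 && Nat.beq (yT y * yA y % 3) (2 ^ yD y % 3))

/-- all residues of the type y are served -/
def Ty (y : ℕ) : Prop := (∀ r < yA y, ∃ e g k, Clo e ∧ tyB y r e g k = true) ∧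
  yA y % 2 = 1 ∧ 4 % (2 * yT y) = 0 ∧ yT y * yA y % 3 = 2 ^ yD y % 3

lemma Ty.of {CT J : ℕ} (hC : Clos CT J) (y W : ℕ) (h : tyD CT J y W = true) : Ty y := by
  simp only [tyD, Bool.and_eq_true, Nat.beq_eq] at h
  obtain ⟨h0, ⟨h1, h2⟩, h3⟩ := h
  refine ⟨fun r hr => ?_, h1, h2, h3⟩
  have := allb_spec h0 r hr
  simp only [tyE, Bool.and_eq_true, Nat.ble_eq] at this
  exact ⟨_, _, _, hC _ this.1, this.2⟩

lemma cc_mod (M : ℕ) : cc M % 3 = 2 ^ M % 3 := by
  have : 2 ^ M = 4 ^ (M / 2) * 2 ^ (M % 2) := by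
    rw [show (4 : ℕ) = 2 ^ 2 by norm_num, ← pow_mul, ← pow_add]; congr 1; omega
  have p3 : 4 ^ (M / 2) % 3 = 1 := by rw [Nat.pow_mod]; simp
  rw [this, Nat.mul_mod, p3]
  unfold cc; omega

lemma two_pow_mod (n : ℕ) : 2 ^ n % 3 = 1 ∨ 2 ^ n % 3 = 2 := by
  induction n with
  | zero => simp
  | succ n ih => rw [pow_succ]; omega

lemma slot {m L H i y a : ℕ} (hF : Fam m L H i) (hL : 60 ≤ L) (hy : Ty y)
    (h0 : (cc (m + 9 * i + yD y) + 3 * a) % (2 * yT y) = 0)
    (h1 : yT y * yA y * (77 ^ i * L) + 4 ^ i * y1 y ≤ cc (m + 9 * i + yD y) + 3 * a)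
    (h2 : cc (m + 9 * i + yD y) + 3 * a + 4 ^ i * y2 y ≤ yT y * yA y * (77 ^ i * H)) : Att a := by
  obtain ⟨hr, o1, o2, o3⟩ := hy
  have hodd : Nat.Coprime 2 (yA y) := by
    rw [Nat.coprime_two_left, Nat.odd_iff]; exact o1
  have hc : Nat.Coprime (4 ^ i) (yA y) :=
    Nat.Coprime.pow_left i (by simpa using Nat.Coprime.pow_left 2 hodd)
  have hk3 : (cc (m + 9 * i + yD y) + 3 * a) % 3 = 2 ^ (m + 9 * i) * 2 ^ yD y % 3 := by
    have := cc_mod (m + 9 * i + yD y)
    rw [pow_add] at this; omega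
  generalize hk : cc (m + 9 * i + yD y) + 3 * a = K at *
  obtain ⟨r, hr1, hr2⟩ := Nat.exists_mul_mod_eq_of_coprime K hc (by omega)
  obtain ⟨e, g, k, hC, hB⟩ := hr r hr1
  simp only [tyB, Bool.and_eq_true, Nat.ble_eq, Nat.beq_eq] at hB
  obtain ⟨⟨⟨⟨⟨⟨⟨⟨⟨hg, hk6⟩, e1⟩, e2⟩, e3⟩, e4⟩, e5⟩, e6⟩, e7⟩, e8⟩ := hB
  have p1 : 4 ^ i ≤ 77 ^ i := Nat.pow_le_pow_left (by norm_num) i
  have p3 : 4 ^ i % 3 = 1 := by rw [Nat.pow_mod]; simp
  rw [← e2] at h1 h2 o3
  generalize hw : 4 ^ i = w at *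
  generalize hW : 77 ^ i = W at *
  generalize hΓ : 2 * eG e g k = Γ at *
  have q1 : w * Γ ≤ w * (eA e * fld g 3 + y1 y) := Nat.mul_le_mul_left _ e6
  have q2 : w * (eA e * fld g 4) ≤ w * (Γ + y2 y) := Nat.mul_le_mul_left _ e7
  have q3 : eA e * (w * fld g 3) ≤ eA e * (W * L) :=
    Nat.mul_le_mul_left _ (Nat.mul_le_mul p1 (by omega))
  have q4 : w * Γ ≤ K := by nlinarith
  have q5 : yA y ∣ K - w * Γ := by
    refine (Nat.modEq_iff_dvd' q4).1 ?_
    show w * Γ % _ = K % _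
    rw [← hr2, ← e3, Nat.mul_mod_mod]
  have q6 : 2 * yT y ∣ K - w * Γ :=
    Nat.dvd_sub (Nat.dvd_of_mod_eq_zero h0) (Dvd.dvd.mul_left (Nat.dvd_of_mod_eq_zero e4) _)
  have q7 : Nat.Coprime (2 * yT y) (yA y) :=
    Nat.Coprime.coprime_dvd_left (Nat.dvd_of_mod_eq_zero o2)
      (by simpa using Nat.Coprime.pow_left 2 hodd)
  obtain ⟨z, hz⟩ := Nat.Coprime.mul_dvd_of_dvd_of_dvd q7 q6 q5
  have hK : K = 2 * z * eA e + w * Γ := by
    rw [e2]; have : 2 * yT y * yA y * z = 2 * z * (yT y * yA y) := by ring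
    omega
  have hA : 0 < eA e := by
    rcases two_pow_mod (yD y) with h | h <;> omega
  have q8 : (2 * z + gs g) % 3 = 2 ^ (m + 9 * i) % 3 := by
    have a1 : w * Γ % 3 = eA e * gs g % 3 := by rw [Nat.mul_mod, p3, ← e5]; simp
    have a2 : eA e * (2 * z + gs g) % 3 = eA e * 2 ^ (m + 9 * i) % 3 := by
      have b1 : eA e * (2 * z + gs g) = 2 * z * eA e + eA e * gs g := by ring
      have b2 : eA e * 2 ^ (m + 9 * i) % 3 = 2 ^ (m + 9 * i) * 2 ^ yD y % 3 := by
        rw [Nat.mul_mod, o3, ← Nat.mul_mod, mul_comm]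
      omega
    have a3 : Nat.Coprime 3 (eA e) := by
      rw [Nat.Prime.coprime_iff_not_dvd Nat.prime_three]
      rcases two_pow_mod (yD y) with h | h <;> omega
    exact Nat.ModEq.cancel_left_of_coprime a3 a2
  have hR := hF g (by omega) (2 * z) (by omega) q8
    (by rw [hw, hW]; exact Nat.le_of_mul_le_mul_left (by nlinarith) hA)
    (by rw [hw, hW]; exact Nat.le_of_mul_le_mul_left (by nlinarith) hA)
  refine hC.rg (k := k) (by omega) hR ?_
  rw [e1, hk, hK, hw, ← hΓ]; ring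

/-- fields of a family -/
noncomputable def fM (f : ℕ) : ℕ := bx f 0 8
/-- fields of a family -/
noncomputable def fL (f : ℕ) : ℕ := bx f 8 16
/-- fields of a family -/
noncomputable def fH (f : ℕ) : ℕ := bx f 24 16

/-- the families of the table exist -/
def Fams (FT F : ℕ) : Prop := ∀ j < F, 60 ≤ fL (fx FT 40 j) ∧
  ∀ i, Fam (fM (fx FT 40 j)) (fL (fx FT 40 j)) (fH (fx FT 40 j)) i

/-- the types of the table exist -/
def Tys (YT Y : ℕ) : Prop := ∀ j < Y, Ty (fx YT 80 j)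

/-- one step of the chain -/
noncomputable def stepB (P f i y c : ℕ) : ℕ :=
  cond (Nat.beq ((cc (fM f + 9 * i + yD y) + 3 * P) % (2 * yT y)) 0 &&
    Nat.ble (yT y * yA y * (77 ^ i * fL f) + 4 ^ i * y1 y) c)
    (yT y * yA y * (77 ^ i * fH f) - (cc (fM f + 9 * i + yD y) + 4 ^ i * y2 y)) 0

/-- unpacking -/
noncomputable def stepE (FT F YT Y P d c : ℕ) : ℕ :=
  cond (Nat.ble (bx d 0 3 + 1) F && Nat.ble (bx d 7 5 + 1) Y)
    (stepB P (fx FT 40 (bx d 0 3)) (bx d 3 4) (fx YT 80 (bx d 7 5)) c) 0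

/-- the chain -/
noncomputable def walk (FT F YT Y P D S n : ℕ) : ℕ :=
  Nat.rec S (fun j c => stepE FT F YT Y P (fx D 12 j) c) n

/-- covered range -/
def Cov (q P S c : ℕ) : Prop :=
  ∀ a, a % 4 = P → 77 ^ (8 * q) * S ≤ 3 * a → 3 * a < 77 ^ (8 * q) * c → Att a

lemma Cov.step {q P S c f i y : ℕ} (hL : 60 ≤ fL f) (hF : ∀ i, Fam (fM f) (fL f) (fH f) i)
    (hy : Ty y) (h : Cov q P S c) : Cov q P S (stepB P f i y c) := by
  unfold stepB
  cases hb : (Nat.beq ((cc (fM f + 9 * i + yD y) + 3 * P) % (2 * yT y)) 0 &&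
    Nat.ble (yT y * yA y * (77 ^ i * fL f) + 4 ^ i * y1 y) c)
  · intro a _ _ h3
    simp at h3
  simp only [Bool.and_eq_true, Nat.ble_eq, Nat.beq_eq] at hb
  obtain ⟨b1, b2⟩ := hb
  intro a h1 h2 h3
  simp only [cond_true] at h3
  by_cases h4 : 3 * a < 77 ^ (8 * q) * c
  · exact h a h1 h2 h4
  have e0 : cc (fM f + 9 * (8 * q + i) + yD y) = cc (fM f + 9 * i + yD y) + 108 * q := by
    unfold cc
    rw [show (fM f + 9 * (8 * q + i) + yD y) % 2 = (fM f + 9 * i + yD y) % 2 by omega]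
    omega
  have p1 : 4 ^ (8 * q) ≤ 77 ^ (8 * q) := Nat.pow_le_pow_left (by norm_num) _
  have p2 : 108 * q + 1 ≤ 77 ^ (8 * q) := by
    clear * -
    induction q with
    | zero => simp
    | succ q ih => rw [show 8 * (q + 1) = 8 * q + 8 by ring, pow_add]; omega
  have p3 : 1 ≤ cc (fM f + 9 * i + yD y) := by
    unfold cc; have : 0 < 2 ^ ((fM f + 9 * i + yD y) % 2) := by positivity
    omega
  refine slot (hF (8 * q + i)) hL hy ?_ ?_ ?_
  · rw [e0]
    have d4 : 2 * yT y ∣ 4 := Nat.dvd_of_mod_eq_zero hy.2.2.1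
    have : cc (fM f + 9 * i + yD y) + 108 * q + 3 * a =
        cc (fM f + 9 * i + yD y) + 3 * P + 4 * (27 * q + 3 * (a / 4)) := by omega
    rw [this]
    exact Nat.mod_eq_zero_of_dvd
      (Nat.dvd_add (Nat.dvd_of_mod_eq_zero b1) (Dvd.dvd.mul_right d4 _))
  · rw [e0, pow_add, pow_add]
    have q1 := Nat.mul_le_mul_left (77 ^ (8 * q)) b2
    have q2 := Nat.mul_le_mul_right (4 ^ i * y1 y) p1
    nlinarith
  · rw [e0, pow_add, pow_add]
    have q2 := Nat.mul_le_mul_right (4 ^ i * y2 y) p1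
    have q3 := Nat.mul_le_mul_right (cc (fM f + 9 * i + yD y)) p2
    have q4 := Nat.mul_le_mul_left (108 * q) p3
    generalize cc (fM f + 9 * i + yD y) = C at *
    by_cases h5 : C + 4 ^ i * y2 y ≤ yT y * yA y * (77 ^ i * fH f)
    · obtain ⟨z, hz⟩ := Nat.exists_eq_add_of_le h5
      rw [hz, Nat.add_sub_cancel_left] at h3
      have : yT y * yA y * (77 ^ (8 * q) * 77 ^ i * fH f) =
          77 ^ (8 * q) * (C + 4 ^ i * y2 y + z) := by rw [← hz]; ring
      rw [this]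
      nlinarith
    · rw [Nat.sub_eq_zero_of_le (by omega)] at h3
      simp at h3

lemma Cov.walk {FT F YT Y : ℕ} (hF : Fams FT F) (hY : Tys YT Y) (q P D S n : ℕ) :
    Cov q P S (walk FT F YT Y P D S n) := by
  induction n with
  | zero => intro a _ h2 h3; exact absurd h3 (not_lt.2 h2)
  | succ n ih =>
    show Cov q P S (stepE FT F YT Y P (fx D 12 n) (Two.walk FT F YT Y P D S n))
    unfold stepE
    cases hb : (Nat.ble (bx (fx D 12 n) 0 3 + 1) F && Nat.ble (bx (fx D 12 n) 7 5 + 1) Y)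
    · intro a _ _ h3
      simp at h3
    simp only [Bool.and_eq_true, Nat.ble_eq] at hb
    exact Cov.step (hF _ hb.1).1 (hF _ hb.1).2 (hY _ hb.2) ih

lemma att_large {FT F YT Y S : ℕ} (hF : Fams FT F) (hY : Tys YT Y) (hS : 0 < S)
    (hP : ∀ P < 4, ∃ D n, Nat.ble (77 ^ 8 * S) (walk FT F YT Y P D S n) = true) (a : ℕ)
    (ha : S ≤ 3 * a) : Att a := by
  have key : ∀ q, 3 * a < 77 ^ (8 * q) * S → Att a := by
    intro q
    induction q with
    | zero => intro h; simp at h; omega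
    | succ q ih =>
      intro h
      by_cases h1 : 3 * a < 77 ^ (8 * q) * S
      · exact ih h1
      obtain ⟨D, n, hD⟩ := hP (a % 4) (Nat.mod_lt _ (by norm_num))
      rw [Nat.ble_eq] at hD
      refine Cov.walk hF hY q _ D S n a rfl (not_lt.1 h1) (h.trans_le ?_)
      rw [mul_add, pow_add, mul_assoc]
      exact Nat.mul_le_mul_left _ hD
  refine key a ?_
  have : 3 * a < 2 ^ (3 * a) := Nat.lt_two_pow_self
  calc 3 * a < 2 ^ (3 * a) := this
    _ ≤ 77 ^ (8 * a) := (Nat.pow_le_pow_left (by norm_num) _).trans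
        (Nat.pow_le_pow_right (by norm_num) (by omega))
    _ ≤ _ := Nat.le_mul_of_pos_right _ hS

/-- check of an explicit witness -/
noncomputable def smB (a e f i g k x : ℕ) : Bool :=
  Nat.beq (eA e) (cc (2 + eD e) + 3 * a) ||
  (Nat.ble g 22 && Nat.ble k 5 && Nat.beq (x % 2) 0 &&
    Nat.beq ((x + gs g) % 3) (2 ^ (fM f + 9 * i) % 3) &&
    Nat.ble (77 ^ i * fL f) (x + 4 ^ i * fld g 3) && Nat.ble (x + 4 ^ i * fld g 4) (77 ^ i * fH f) &&
    Nat.beq (x * eA e + 2 * 4 ^ i * eG e g k) (cc (fM f + 9 * i + eD e) + 3 * a))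

/-- weights of a single state -/
noncomputable def pu (d i : ℕ) : ℕ := bx d (30 + 8 * i) 8

/-- check of a single state followed by a closing -/
noncomputable def ptB (a d e : ℕ) : Bool :=
  all16 (fun p q r t => Nat.beq (cv (bx d 10 4) (bx d 14 4) (Nat.shiftRight d 57) 0 p q r t)
    (st (bx d 18 12) (pu d 0) (pu d 1) (pu d 2) p q r t)) &&
  (Nat.ble 2 (bx d 10 4) && Nat.ble (bx d 54 3) 5 &&
    Nat.beq (bx d 18 12 * eA e + pu d (pm (bx d 54 3) 0) * bx e 24 16 +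
      pu d (pm (bx d 54 3) 1) * bx e 40 16 + pu d (pm (bx d 54 3) 2) * bx e 56 16)
      (cc (2 + (bx d 10 4 + bx d 14 4) + eD e) + 3 * a))

lemma ptB_spec {a d e : ℕ} (hC : Clo e) (h : ptB a d e = true) : Att a := by
  simp only [ptB, Bool.and_eq_true, Nat.ble_eq, Nat.beq_eq] at h
  obtain ⟨h0, ⟨h1, h2⟩, h3⟩ := h
  have hR : R (2 + (bx d 10 4 + bx d 14 4)) (bx d 18 12) (pu d 0) (pu d 1) (pu d 2) := by
    have := R.step (bx d 10 4) (bx d 14 4) (Nat.shiftRight d 57) R_triv h1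
    unfold R
    convert this using 1
    funext p q r t
    have h1 := all16_spec h0 p q r t
    simp only [Nat.beq_eq] at h1
    rw [← h1]; ring
  exact hC _ _ _ _ _ ((R.perm (k := bx d 54 3) (by omega) (pu d)).1 hR) a h3

/-- unpacking -/
noncomputable def ptE (CT J a d : ℕ) : Bool :=
  Nat.ble (bx d 0 10 + 1) J && ptB a d (fx CT 72 (bx d 0 10))

/-- check of a block of exceptional values -/
noncomputable def ptD (CT J X j0 len D : ℕ) : Bool :=
  allb len (fun i => ptE CT J (fx X 16 (j0 + i)) (fx D 144 i))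

/-- the exceptional values are attained -/
def Exc (X n : ℕ) : Prop := ∀ j < n, Att (fx X 16 j)

lemma Exc.add {CT J X j0 : ℕ} (hC : Clos CT J) (h0 : Exc X j0) (len D : ℕ)
    (h : ptD CT J X j0 len D = true) : Exc X (j0 + len) := by
  intro j hj
  by_cases h1 : j < j0
  · exact h0 j h1
  obtain ⟨i, rfl⟩ := Nat.exists_eq_add_of_le (not_lt.1 h1)
  have h2 := allb_spec h i (by omega)
  simp only [ptE, Bool.and_eq_true, Nat.ble_eq] at h2
  exact ptB_spec (hC _ h2.1) h2.2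

/-- unpacking -/
noncomputable def smE (FT F CT J X N a w : ℕ) : Bool :=
  (Nat.ble (bx w 0 10 + 1) N && Nat.beq (fx X 16 (bx w 0 10)) a) ||
  (Nat.ble (bx w 0 10 + 1) J && Nat.ble (bx w 10 3 + 1) F &&
    smB a (fx CT 72 (bx w 0 10)) (fx FT 40 (bx w 10 3)) (bx w 13 2) (bx w 15 5) (bx w 20 3)
      (bx w 23 17))

/-- check of a block of witnesses -/
noncomputable def smD (FT F CT J X N a0 len W : ℕ) : Bool :=
  allb len (fun j => smE FT F CT J X N (a0 + j) (fx W 40 j))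

/-- initial range -/
def Upto (n : ℕ) : Prop := ∀ a < n, Att a

lemma Upto.zero : Upto 0 := fun a h => by omega

lemma Upto.add {FT F CT J X N a0 : ℕ} (hF : Fams FT F) (hC : Clos CT J) (hX : Exc X N)
    (h0 : Upto a0) (len W : ℕ) (h : smD FT F CT J X N a0 len W = true) : Upto (a0 + len) := by
  intro a ha
  by_cases h1 : a < a0
  · exact h0 a h1
  obtain ⟨j, rfl⟩ := Nat.exists_eq_add_of_le (not_lt.1 h1)
  have h2 := allb_spec h j (by omega)
  simp only [smE, smB, Bool.and_eq_true, Bool.or_eq_true, Nat.ble_eq, Nat.beq_eq] at h2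
  obtain ⟨b1, b2⟩ | ⟨⟨b1, b2⟩, b3 | ⟨⟨⟨⟨⟨⟨c1, c2⟩, c3⟩, c4⟩, c5⟩, c6⟩, c7⟩⟩ := h2
  · rw [← b2]; exact hX _ b1
  · exact hC _ b1 2 1 0 0 0 R_triv _ (by rw [← b3]; ring)
  · exact (hC _ b1).rg (by omega) ((hF _ b2).2 _ _ (by omega) _ c3 c4 c5 c6) c7

lemma conj_eq (G : Type) [Group G] [Fintype G] [DecidableEq G] (k : ℕ)
    (h : (Finset.univ.filter (fun p : G × G => p.1 * p.2 = p.2 * p.1)).card =
      k * Fintype.card G) : Nat.card (ConjClasses G) = k := by
  have h1 : Nat.card {p : G × G // p.1 * p.2 = p.2 * p.1} = _ :=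
    card_comm_eq_card_conjClasses_mul_card G
  rw [Nat.card_eq_fintype_card (α := Subtype _), Fintype.card_subtype,
    Nat.card_eq_fintype_card (α := G)] at h1
  have h2 : k * Fintype.card G = Nat.card (ConjClasses G) * Fintype.card G := by
    rw [← h, ← h1]
  exact (Nat.eq_of_mul_eq_mul_right Fintype.card_pos h2).symm

lemma conj_prod (G H : Type) [Group G] [Group H] [Finite G] [Finite H] :
    Nat.card (ConjClasses (G × H)) = Nat.card (ConjClasses G) * Nat.card (ConjClasses H) := by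
  have h := commProb_prod G H
  rw [commProb_def', commProb_def', commProb_def', Nat.card_prod] at h
  have a : (Nat.card G : ℚ) ≠ 0 := by exact_mod_cast Nat.card_pos.ne'
  have b : (Nat.card H : ℚ) ≠ 0 := by exact_mod_cast Nat.card_pos.ne'
  push_cast at h
  field_simp at h
  exact_mod_cast h

lemma conj_d4 : Nat.card (ConjClasses (DihedralGroup 4)) = 5 :=
  conj_eq _ _ (by decide +kernel)

lemma conj_d8 : Nat.card (ConjClasses (DihedralGroup 8)) = 7 :=
  conj_eq _ _ (by decide +kernel)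

lemma conj_d16 : Nat.card (ConjClasses (DihedralGroup 16)) = 11 :=
  conj_eq _ _ (by decide +kernel)

lemma att12 : Att 12 := ⟨DihedralGroup 8 × DihedralGroup 8, inferInstance, inferInstance, 8,
  by simp [DihedralGroup.card], by rw [conj_prod, conj_d8]; norm_num⟩

lemma att14 : Att 14 := ⟨DihedralGroup 4 × DihedralGroup 16, inferInstance, inferInstance, 8,
  by simp [DihedralGroup.card], by rw [conj_prod, conj_d4, conj_d16]; norm_num⟩

lemma Exc.two {X : ℕ} (h : (Nat.beq (fx X 16 0) 12 && Nat.beq (fx X 16 1) 14) = true) :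
    Exc X 2 := by
  simp only [Bool.and_eq_true, Nat.beq_eq] at h
  intro j hj
  interval_cases j
  · rw [h.1]; exact att12
  · rw [h.2]; exact att14

end Pool.Agent.Lib.MP_78c6b1_al.Two
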