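import Pool.Agent.Lib.MP_78c6b1_al.TwoSys

/-! Gluing a concrete gadget to a system. -/

set_option autoImplicit false
set_option linter.unusedSectionVars false

namespace Pool.Agent.Lib.MP_78c6b1_al.Two

open Finset

/-- coordinates of a vertex assignment -/
def val {n : ℕ} (a : F × F) (w : Fin n → F) (k : ℕ) : F :=
  if k = 0 then a.1 else if k = 1 then a.2 else if h : k - 2 < n then w ⟨k - 2, h⟩ else 0

lemma val_add {n : ℕ} (a a' : F × F) (w w' : Fin n → F) (k : ℕ) :
    val (a + a') (w + w') k = val a w k + val a' w' k := by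
  unfold val; split_ifs <;> simp

lemma val_zero {n : ℕ} (k : ℕ) : val (n := n) 0 0 k = 0 := by
  unfold val; split_ifs <;> simp

variable (n s : ℕ) (U : ℕ → ℕ → ℕ → Bool)

/-- the bilinear map of the gadget -/
def gβ (a : F × F) (w : Fin n → F) (a' : F × F) (w' : Fin n → F) (j : Fin s) : F :=
  ∑ p ∈ range (n + 2), ∑ q ∈ range (n + 2), tf (U j p q) * val a w p * val a' w' q

/-- the glued system -/
def Sys.glue (S : Sys) : Sys where
  V := S.V × (Fin n → F)
  L := S.L × (Fin s → F)
  Z := S.Z × (Fin s → F)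
  β x x' := (S.β x.1 x'.1, gβ n s U (S.y x.1) x.2 (S.y x'.1) x'.2)
  p l z := S.p l.1 z.1 + ∑ j, l.2 j * z.2 j
  β1 a b c := by
    ext j
    · simp [S.β1]
    · simp [gβ, S.y1, val_add, mul_add, add_mul, Finset.sum_add_distrib]
  β2 a b c := by
    ext j
    · simp [S.β2]
    · simp [gβ, S.y1, val_add, mul_add, Finset.sum_add_distrib]
  p1 a b c := by simp [S.p1, add_mul, Finset.sum_add_distrib]; ring
  p2 a b c := by simp [S.p2, mul_add, Finset.sum_add_distrib]; ring
  nd z h := by
    have h1 : z.1 = 0 := S.nd _ fun l => by simpa using h (l, 0)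
    have h2 : z.2 = 0 := by
      funext j
      have := h (0, Pi.single j 1)
      rw [add_zero_of (fun l => S.p l z.1) (fun a b => S.p1 a b _)] at this
      simpa [Pi.single_apply] using this
    exact Prod.ext h1 h2
  n := S.n + n
  s := S.s + s
  cV := by simp [S.cV, pow_add]
  cL := by simp [S.cL, pow_add]
  cZ := by simp [S.cZ, pow_add]
  y x := (val 0 x.2 n, val 0 x.2 (n + 1))
  y1 a b := by
    have := val_add (n := n) 0 0 a.2 b.2
    simp only [add_zero] at this
    simp [this]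

/-- row functional -/
def row (c : Fin s → F) (a : F × F) (w : Fin n → F) (q : ℕ) : F :=
  ∑ j : Fin s, c j * ∑ p ∈ range (n + 2), tf (xor (U j p q) (U j q p)) * val a w p

lemma tf_xor (a b : Bool) : tf (xor a b) = tf a + tf b := by revert a b; decide
lemma tf_and (a b : Bool) : tf (a && b) = tf a * tf b := by revert a b; decide
lemma tf_inj {a b : Bool} : tf a = tf b ↔ a = b := by revert a b; decide
lemma F_sub (a b : F) : a - b = a + b := by revert a b; decide

lemma glue_B (S : Sys) (l : S.L) (c : Fin s → F) (v v' : S.V) (w w' : Fin n → F) :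
    (S.glue n s U).toDat.B (l, c) (v, w) (v', w') = S.toDat.B l v v' +
      ∑ q ∈ range (n + 2), row n s U c (S.y v) w q * val (S.y v') w' q := by
  have e : (S.glue n s U).toDat.B (l, c) (v, w) (v', w') = S.toDat.B l v v' +
      ∑ j, c j * (gβ n s U (S.y v) w (S.y v') w' j - gβ n s U (S.y v') w' (S.y v) w j) := rfl
  rw [e]
  congr 1
  simp only [row, Finset.sum_mul]
  rw [Finset.sum_comm]
  refine Finset.sum_congr rfl fun j _ => ?_
  rw [F_sub, gβ, gβ, Finset.sum_comm (s := range (n + 2)), ← Finset.sum_add_distrib,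
    Finset.mul_sum]
  refine Finset.sum_congr rfl fun q _ => ?_
  rw [← Finset.sum_add_distrib, mul_assoc, Finset.sum_mul]
  congr 1
  refine Finset.sum_congr rfl fun p _ => ?_
  rw [tf_xor]; ring

lemma sum_val_left (r : ℕ → F) (a : F × F) :
    ∑ q ∈ range (n + 2), r q * val (n := n) a 0 q = r 0 * a.1 + r 1 * a.2 := by
  rw [Finset.sum_range_succ', Finset.sum_range_succ']
  have : ∑ k ∈ range n, r (k + 1 + 1) * val (n := n) a 0 (k + 1 + 1) = 0 := by
    refine Finset.sum_eq_zero fun k _ => ?_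
    unfold val; split_ifs <;> simp_all
  rw [this]; simp [val]; ring

lemma glue_key (S : Sys) (l : S.L) (c : Fin s → F) (v : S.V) (w : Fin n → F)
    (φ : (Fin n → F) → F) (h0 : φ 0 = 0) :
    (∀ x : S.V × (Fin n → F), (S.glue n s U).toDat.B (l, c) (v, w) x = φ x.2) ↔
      (∀ v', S.toDat.B l v v' = row n s U c (S.y v) w 0 * (S.y v').1 +
        row n s U c (S.y v) w 1 * (S.y v').2) ∧
      ∀ w', ∑ q ∈ range (n + 2), row n s U c (S.y v) w q * val 0 w' q = φ w' := by
  have hy : S.y 0 = 0 := add_zero_of _ S.y1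
  have hB : S.toDat.B l v 0 = 0 := add_zero_of _ (S.toDat.B_add l v)
  constructor
  · intro h
    refine ⟨fun v' => ?_, fun w' => ?_⟩
    · have := h (v', 0)
      rw [glue_B, sum_val_left, h0] at this
      rw [← sub_eq_zero, F_sub]; exact this
    · have := h (0, w')
      rwa [glue_B, hy, hB, zero_add] at this
  · rintro ⟨h1, h2⟩ ⟨v', w'⟩
    rw [glue_B, h1, ← h2 w']
    have := val_add (n := n) (S.y v') 0 0 w'
    simp only [add_zero, zero_add] at this
    simp only [this, mul_add, Finset.sum_add_distrib, sum_val_left]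
    rw [← add_assoc, CharTwo.add_self_eq_zero, zero_add]

lemma glue_sum (S : Sys) (Q : (Fin n → F) → Prop) (φ : (Fin n → F) → F) (h0 : φ 0 = 0) :
    (∑ l : S.L × (Fin s → F), ∑ v : S.V × (Fin n → F),
      ind (Q v.2 ∧ ∀ x : S.V × (Fin n → F), (S.glue n s U).toDat.B l v x = φ x.2)) =
    ∑ t : (Fin s → F) × (Fin n → F) × (F × F),
      ind (Q t.2.1 ∧ ∀ w', ∑ q ∈ range (n + 2), row n s U t.1 t.2.2 t.2.1 q * val 0 w' q = φ w') *
      S.cnt t.2.2 (row n s U t.1 t.2.2 t.2.1 0, row n s U t.1 t.2.2 t.2.1 1) := by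
  simp only [Fintype.sum_prod_type (α₁ := S.L), Fintype.sum_prod_type (α₁ := S.V),
    Fintype.sum_prod_type (α₁ := Fin s → F), Fintype.sum_prod_type (α₁ := Fin n → F),
    glue_key n s U S _ _ _ _ φ h0]
  rw [Finset.sum_comm]
  refine Finset.sum_congr rfl fun c _ => ?_
  simp_rw [Finset.sum_comm (s := (univ : Finset S.V))]
  rw [Finset.sum_comm]
  refine Finset.sum_congr rfl fun w _ => ?_
  simp only [Sys.cnt, Finset.mul_sum]
  rw [Finset.sum_comm (s := (univ : Finset (F × F)))]
  refine Finset.sum_congr rfl fun l _ => ?_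
  rw [Finset.sum_comm (s := (univ : Finset (F × F)))]
  refine Finset.sum_congr rfl fun v _ => ?_
  rw [Finset.sum_eq_single (S.y v)]
  · rw [← ind_and]
    congr 1
    simp only [true_and, eq_iff_iff]
    tauto
  · intro b _ hb
    simp [Ne.symm hb, ind]
  · simp

lemma sum_val_right (r : ℕ → F) (w : Fin n → F) :
    ∑ q ∈ range (n + 2), r q * val 0 w q = ∑ k : Fin n, r (k + 2) * w k := by
  rw [Finset.sum_range_succ', Finset.sum_range_succ', ← Fin.sum_univ_eq_sum_range
    (fun k => r (k + 1 + 1) * val 0 w (k + 1 + 1))]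
  simp [val]

lemma cond_zero (r : ℕ → F) :
    (∀ w : Fin n → F, ∑ q ∈ range (n + 2), r q * val 0 w q = 0) ↔ ∀ k < n, r (k + 2) = 0 := by
  simp only [sum_val_right]
  constructor
  · intro h k hk
    simpa [Pi.single_apply] using h (Pi.single ⟨k, hk⟩ 1)
  · intro h w
    exact Finset.sum_eq_zero fun k _ => by rw [h k k.2, zero_mul]

lemma cond_out (m : ℕ) (r : ℕ → F) (e1 e2 : F) :
    (∀ w : Fin (m + 2) → F, ∑ q ∈ range (m + 2 + 2), r q * val 0 w q =
      e1 * val 0 w (m + 2) + e2 * val 0 w (m + 2 + 1)) ↔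
      (∀ k < m, r (k + 2) = 0) ∧ r (m + 2) = e1 ∧ r (m + 3) = e2 := by
  have key := cond_zero (m + 2)
    (fun q => r q + (if q = m + 2 then e1 else 0) + (if q = m + 3 then e2 else 0))
  have e : ∀ w : Fin (m + 2) → F, ∑ q ∈ range (m + 2 + 2),
      (r q + (if q = m + 2 then e1 else 0) + (if q = m + 3 then e2 else 0)) * val 0 w q =
      ∑ q ∈ range (m + 2 + 2), r q * val 0 w q -
        (e1 * val 0 w (m + 2) + e2 * val 0 w (m + 2 + 1)) := by
    intro w
    simp only [add_mul, Finset.sum_add_distrib, ite_mul, zero_mul, Finset.sum_ite_eq', mem_range]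
    rw [if_pos (by omega), if_pos (by omega), F_sub, add_assoc]
  simp only [e, sub_eq_zero] at key
  rw [key]
  constructor
  · intro h
    refine ⟨fun k hk => ?_, ?_, ?_⟩
    · have := h k (by omega)
      rwa [if_neg (by omega), if_neg (by omega), add_zero, add_zero] at this
    · have := h m (by omega)
      rwa [if_pos rfl, if_neg (by omega), add_zero, ← F_sub, sub_eq_zero] at this
    · have := h (m + 1) (by omega)
      rwa [if_neg (by omega), if_pos rfl, add_zero, ← F_sub, sub_eq_zero] at this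
  · rintro ⟨h1, h2, h3⟩ k hk
    rcases (by omega : k < m ∨ k = m ∨ k = m + 1) with h | rfl | rfl
    · rw [h1 k h, if_neg (by omega), if_neg (by omega)]; simp
    · rw [if_pos rfl, if_neg (by omega), add_zero, ← F_sub, h2, sub_self]
    · rw [if_neg (by omega), if_pos rfl, add_zero, ← F_sub, h3, sub_self]

/-- decoding of an index -/
def dec (i : ℕ) : (Fin s → F) × (Fin n → F) × (F × F) :=
  (fun j => tf (i.testBit (n + 2 + j)), fun k => tf (i.testBit (k + 2)),
    (tf (i.testBit 0), tf (i.testBit 1)))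

lemma sum_dec (f : (Fin s → F) × (Fin n → F) × (F × F) → ℕ) :
    ∑ t, f t = ∑ i ∈ range (2 ^ (n + 2 + s)), f (dec n s i) := by
  symm
  have hinj : ∀ i ∈ range (2 ^ (n + 2 + s)), ∀ i' ∈ range (2 ^ (n + 2 + s)),
      dec n s i = dec n s i' → i = i' := by
    intro i hi i' hi' h
    simp only [dec, Prod.mk.injEq, tf_inj] at h
    obtain ⟨h1, h2, h3, h4⟩ := h
    refine Nat.eq_of_testBit_eq fun k => ?_
    rcases (by omega : k = 0 ∨ k = 1 ∨ (2 ≤ k ∧ k < n + 2) ∨ (n + 2 ≤ k ∧ k < n + 2 + s) ∨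
      n + 2 + s ≤ k) with rfl | rfl | hk | hk | hk
    · exact h3
    · exact h4
    · have := congrFun h2 ⟨k - 2, by omega⟩
      simp only [tf_inj] at this
      rwa [Nat.sub_add_cancel hk.1] at this
    · have := congrFun h1 ⟨k - (n + 2), by omega⟩
      simp only [tf_inj] at this
      rwa [Nat.add_sub_cancel' hk.1] at this
    · rw [Nat.testBit_lt_two_pow ((mem_range.1 hi).trans_le (Nat.pow_le_pow_right (by norm_num) hk)),
        Nat.testBit_lt_two_pow ((mem_range.1 hi').trans_le (Nat.pow_le_pow_right (by norm_num) hk))]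
  refine Finset.sum_bij (fun i _ => dec n s i) (fun _ _ => mem_univ _)
    (fun i hi i' hi' h => hinj i hi i' hi' h) (fun t ht => ?_) (fun _ _ => rfl)
  obtain ⟨i, hi, h⟩ := Finset.surj_on_of_inj_on_of_card_le (s := range (2 ^ (n + 2 + s)))
    (t := univ) (fun i _ => dec n s i) (fun _ _ => mem_univ _)
    (fun i i' hi hi' h => hinj i hi i' hi' h) (by simp [pow_add]; ring_nf; rfl) t ht
  exact ⟨i, hi, h.symm⟩

/-- xor fold -/
def xf (g : ℕ → Bool) : ℕ → Bool
  | 0 => false
  | k + 1 => xor (xf g k) (g k)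

lemma tf_xf (g : ℕ → Bool) (k : ℕ) : tf (xf g k) = ∑ a ∈ range k, tf (g a) := by
  induction k with
  | zero => rfl
  | succ k ih => rw [xf, tf_xor, ih, Finset.sum_range_succ]

/-- Boolean row function -/
def rb (q i : ℕ) : Bool :=
  xf (fun j => i.testBit (n + 2 + j) &&
    xf (fun p => xor (U j p q) (U j q p) && i.testBit p) (n + 2)) s

lemma val_dec (i k : ℕ) (hk : k < n + 2) :
    val (dec n s i).2.2 (dec n s i).2.1 k = tf (i.testBit k) := by
  unfold val dec
  split_ifs with h1 h2 h3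
  · simp [h1]
  · simp [h2]
  · simp only; rw [Nat.sub_add_cancel (by omega)]
  · omega

lemma val_dec0 (i k : ℕ) (h2 : 2 ≤ k) (hk : k < n + 2) :
    val 0 (dec n s i).2.1 k = tf (i.testBit k) := by
  rw [← val_dec n s i k hk]
  unfold val
  rw [if_neg (by omega), if_neg (by omega), if_neg (by omega), if_neg (by omega)]

lemma row_dec (q i : ℕ) :
    row n s U (dec n s i).1 (dec n s i).2.2 (dec n s i).2.1 q = tf (rb n s U q i) := by
  rw [rb, tf_xf, row, ← Fin.sum_univ_eq_sum_range (fun j => tf (i.testBit (n + 2 + j) &&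
    xf (fun p => xor (U j p q) (U j q p) && i.testBit p) (n + 2)))]
  refine Finset.sum_congr rfl fun j _ => ?_
  rw [tf_and, tf_xf]
  congr 1
  refine Finset.sum_congr rfl fun p hp => ?_
  rw [tf_and, val_dec n s i p (mem_range.1 hp)]

lemma tf_eq_zero {a : Bool} : tf a = 0 ↔ a = false := by revert a; decide

theorem Reach.step {M : ℕ} {f : Bool → Bool → Bool → Bool → ℕ} (h : Reach M f) (m : ℕ) :
    Reach (M + (m + 2 + s)) (fun a b c d => ∑ i ∈ range (2 ^ (m + 2 + 2 + s)),
      ind ((i.testBit (m + 2) = a ∧ i.testBit (m + 3) = b) ∧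
        (∀ k < m, rb (m + 2) s U (k + 2) i = false)
        ∧ rb (m + 2) s U (m + 2) i = c ∧ rb (m + 2) s U (m + 3) i = d) *
      f (i.testBit 0) (i.testBit 1) (rb (m + 2) s U 0 i) (rb (m + 2) s U 1 i)) := by
  obtain ⟨S, hm, hS⟩ := h
  refine ⟨S.glue (m + 2) s U, by simp only [Sys.glue]; omega, fun a b c d => ?_⟩
  have := glue_sum (m + 2) s U S
    (fun w => (val 0 w (m + 2), val 0 w (m + 2 + 1)) = (tf a, tf b))
    (fun w => tf c * val 0 w (m + 2) + tf d * val 0 w (m + 2 + 1)) (by simp [val_zero])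
  refine Eq.trans rfl (this.trans ?_)
  rw [sum_dec]
  refine Finset.sum_congr rfl fun i _ => ?_
  rw [cond_out, val_dec0 _ _ _ _ (by omega) (by omega), val_dec0 _ _ _ _ (by omega) (by omega)]
  simp only [row_dec, Prod.mk.injEq, tf_inj, tf_eq_zero]
  congr 1
  exact hS _ _ _ _

theorem Reach.close {M : ℕ} {f : Bool → Bool → Bool → Bool → ℕ} (h : Reach M f) (a : ℕ)
    (hk : (∑ i ∈ range (2 ^ (n + 2 + s)), ind (∀ k < n, rb n s U (k + 2) i = false) *
      f (i.testBit 0) (i.testBit 1) (rb n s U 0 i) (rb n s U 1 i)) =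
      3 * ((M + (n + s)) / 2) + 2 ^ ((M + (n + s)) % 2) + 3 * a) : Att a := by
  obtain ⟨S, hm, hS⟩ := h
  have e : (S.glue n s U).n + (S.glue n s U).s = M + (n + s) := by simp only [Sys.glue]; omega
  refine (S.glue n s U).toDat.att a ?_
  rw [e, ← hk]
  have := glue_sum n s U S (fun _ => True) (fun _ => 0) rfl
  simp only [true_and] at this
  refine Eq.trans rfl (this.trans ?_)
  rw [sum_dec]
  refine Finset.sum_congr rfl fun i _ => ?_
  rw [cond_zero]
  simp only [row_dec, tf_eq_zero]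
  congr 1
  exact hS _ _ _ _

end Pool.Agent.Lib.MP_78c6b1_al.Two
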