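import Mathlib

/-! Class two 2-groups given by systems of alternating forms with a two-vertex interface. -/

set_option autoImplicit false
set_option linter.unusedSectionVars false

namespace Pool.Agent.Lib.MP_78c6b1_al.Two

open Finset

abbrev F := ZMod 2

/-- abundance a is attained by a 2-group -/
def Att (a : ℕ) : Prop :=
  ∃ (G : Type) (_ : Group G) (_ : Finite G) (m : ℕ),
    Nat.card G = 2 ^ m ∧ Nat.card (ConjClasses G) = 3 * (m / 2) + 2 ^ (m % 2) + 3 * a

/-- raw data of a class two group -/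
structure Dat where
  V : Type
  L : Type
  Z : Type
  [gV : AddCommGroup V]
  [gL : AddCommGroup L]
  [gZ : AddCommGroup Z]
  [fV : Fintype V]
  [fL : Fintype L]
  [fZ : Fintype Z]
  β : V → V → Z
  p : L → Z → F
  β1 : ∀ a b c, β (a + b) c = β a c + β b c
  β2 : ∀ a b c, β a (b + c) = β a b + β a c
  p1 : ∀ a b c, p (a + b) c = p a c + p b c
  p2 : ∀ a b c, p a (b + c) = p a b + p a c
  nd : ∀ z, (∀ l, p l z = 0) → z = 0
  n : ℕ
  s : ℕ
  cV : Fintype.card V = 2 ^ n
  cL : Fintype.card L = 2 ^ s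
  cZ : Fintype.card Z = 2 ^ s

attribute [instance] Dat.gV Dat.gL Dat.gZ Dat.fV Dat.fL Dat.fZ

lemma add_zero_of {A B : Type} [AddCommGroup A] [AddCommGroup B] (f : A → B)
    (h : ∀ a b, f (a + b) = f a + f b) : f 0 = 0 := by
  have := h 0 0
  simpa using this

lemma add_neg_of {A B : Type} [AddCommGroup A] [AddCommGroup B] (f : A → B)
    (h : ∀ a b, f (a + b) = f a + f b) (a : A) : f (-a) = -f a := by
  have := h a (-a)
  rw [add_neg_cancel, add_zero_of f h] at this
  exact (neg_eq_of_add_eq_zero_right this.symm).symm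

namespace Dat

variable (D : Dat)

/-- the alternating form attached to l -/
def B (l : D.L) (v w : D.V) : F := D.p l (D.β v w - D.β w v)

lemma p_sub (l : D.L) (a b : D.Z) : D.p l (a - b) = D.p l a - D.p l b := by
  rw [sub_eq_add_neg, D.p2, add_neg_of (D.p l) (D.p2 l), sub_eq_add_neg]

lemma B_add (l : D.L) (v w w' : D.V) : D.B l v (w + w') = D.B l v w + D.B l v w' := by
  simp only [B, D.β1, D.β2, p_sub, D.p2]; ring

/-- the group -/
@[ext] structure Grp where
  v : D.V
  z : D.Z

instance : Mul D.Grp := ⟨fun a b => ⟨a.v + b.v, a.z + b.z + D.β a.v b.v⟩⟩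
instance : One D.Grp := ⟨⟨0, 0⟩⟩
instance : Inv D.Grp := ⟨fun a => ⟨-a.v, -a.z + D.β a.v a.v⟩⟩

@[simp] lemma mul_v (a b : D.Grp) : (a * b).v = a.v + b.v := rfl
@[simp] lemma mul_z (a b : D.Grp) : (a * b).z = a.z + b.z + D.β a.v b.v := rfl
@[simp] lemma one_v : (1 : D.Grp).v = 0 := rfl
@[simp] lemma one_z : (1 : D.Grp).z = 0 := rfl
@[simp] lemma inv_v (a : D.Grp) : (a⁻¹).v = -a.v := rfl
@[simp] lemma inv_z (a : D.Grp) : (a⁻¹).z = -a.z + D.β a.v a.v := rfl

instance : Group D.Grp := Group.ofLeftAxioms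
  (fun a b c => by
    ext
    · simp [add_assoc]
    · simp [D.β1, D.β2]; abel)
  (fun a => by
    ext
    · simp
    · simp [add_zero_of (fun x => D.β x a.v) (fun x y => D.β1 x y _)])
  (fun a => by
    ext
    · simp
    · simp [add_neg_of (fun x => D.β x a.v) (fun x y => D.β1 x y _)])

/-- underlying set -/
def gEquiv : D.Grp ≃ D.V × D.Z where
  toFun a := (a.v, a.z)
  invFun a := ⟨a.1, a.2⟩
  left_inv _ := rfl
  right_inv _ := rfl

lemma commute_iff (a b : D.Grp) : Commute a b ↔ D.β a.v b.v - D.β b.v a.v = 0 := by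
  rw [sub_eq_zero]
  constructor
  · intro h
    have := congrArg Grp.z h.eq
    simp only [mul_z] at this
    rw [add_comm a.z b.z] at this
    exact add_left_cancel this
  · intro h
    show a * b = b * a
    ext
    · simp [add_comm]
    · simp [h, add_comm]

/-- commuting pairs -/
def cEquiv : {p : D.Grp × D.Grp // Commute p.1 p.2} ≃
    (D.Z × D.Z) × {u : D.V × D.V // D.β u.1 u.2 - D.β u.2 u.1 = 0} where
  toFun p := ((p.1.1.z, p.1.2.z), ⟨(p.1.1.v, p.1.2.v), (D.commute_iff _ _).1 p.2⟩)
  invFun a := ⟨(⟨a.2.1.1, a.1.1⟩, ⟨a.2.1.2, a.1.2⟩), (D.commute_iff _ _).2 a.2.2⟩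
  left_inv _ := rfl
  right_inv _ := rfl

end Dat

/-- the sign character -/
def sg (t : F) : ℤ := if t = 0 then 1 else -1

lemma sg_add_one (t : F) : sg (t + 1) = -sg t := by
  revert t; decide

open Classical in
lemma sum_sg {A : Type} [AddCommGroup A] [Fintype A] (f : A → F)
    (h : ∀ a b, f (a + b) = f a + f b) :
    ∑ a, sg (f a) = if (∀ a, f a = 0) then (Fintype.card A : ℤ) else 0 := by
  split_ifs with h0
  · simp [h0, sg]
  · push Not at h0
    obtain ⟨a0, ha⟩ := h0
    have h1 : f a0 = 1 := by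
      generalize f a0 = t at ha; revert t; decide
    have := Equiv.sum_comp (Equiv.addRight a0) (fun a => sg (f a))
    simp only [Equiv.coe_addRight, h, h1, sg_add_one, Finset.sum_neg_distrib] at this
    omega

open Classical in
/-- indicator -/
noncomputable def ind (P : Prop) : ℕ := if P then 1 else 0

lemma ind_eq (P : Prop) [Decidable P] : ind P = if P then 1 else 0 := by
  unfold ind; split_ifs <;> rfl

lemma ind_and (P Q : Prop) : ind (P ∧ Q) = ind P * ind Q := by
  unfold ind; split_ifs <;> simp_all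

namespace Dat

variable (D : Dat)

/-- number of pairs (l, v) with v in the radical of the form of l -/
noncomputable def tot : ℕ := ∑ l : D.L, ∑ v : D.V, ind (∀ w, D.B l v w = 0)

theorem att (a : ℕ)
    (h : D.tot = 3 * ((D.n + D.s) / 2) + 2 ^ ((D.n + D.s) % 2) + 3 * a) : Att a := by
  classical
  have hfin : Finite D.Grp := Finite.of_equiv _ D.gEquiv.symm
  have hc : Nat.card D.Grp = 2 ^ D.n * 2 ^ D.s := by
    rw [Nat.card_congr D.gEquiv, Nat.card_prod, Nat.card_eq_fintype_card,
      Nat.card_eq_fintype_card, D.cV, D.cZ]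
  refine ⟨D.Grp, inferInstance, hfin, D.n + D.s, by rw [hc, pow_add], ?_⟩
  rw [← h]
  have h1 := card_comm_eq_card_conjClasses_mul_card D.Grp
  rw [Nat.card_congr D.cEquiv, Nat.card_prod, Nat.card_prod, hc,
    Nat.card_eq_fintype_card (α := D.Z), D.cZ, Nat.card_eq_fintype_card (α := Subtype _),
    Fintype.card_subtype, Finset.card_filter] at h1
  have h2 : ∑ u : D.V × D.V, ∑ l : D.L, sg (D.B l u.1 u.2) =
      (2 : ℤ) ^ D.s * ((∑ u : D.V × D.V,
        if D.β u.1 u.2 - D.β u.2 u.1 = 0 then 1 else 0 : ℕ) : ℤ) := by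
    push_cast
    rw [Finset.mul_sum]
    refine Finset.sum_congr rfl fun u _ => ?_
    have := sum_sg (fun l => D.B l u.1 u.2) (fun a b => D.p1 a b _)
    rw [this, D.cL]
    by_cases hz : D.β u.1 u.2 - D.β u.2 u.1 = 0
    · rw [if_pos hz, if_pos]
      · simp
      · intro l; simp only [B, hz]; exact add_zero_of _ (D.p2 l)
    · rw [if_neg hz, if_neg]
      · simp
      · exact fun h => hz (D.nd _ h)
  have h3 : ∑ u : D.V × D.V, ∑ l : D.L, sg (D.B l u.1 u.2) = (2 : ℤ) ^ D.n * (D.tot : ℤ) := by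
    rw [Finset.sum_comm]
    unfold tot
    push_cast
    rw [Finset.mul_sum]
    refine Finset.sum_congr rfl fun l _ => ?_
    rw [Fintype.sum_prod_type, Finset.mul_sum]
    refine Finset.sum_congr rfl fun v _ => ?_
    have := sum_sg (fun w => D.B l v w) (D.B_add l v)
    rw [this, D.cV, ind_eq]
    split_ifs <;> simp
  rw [h3] at h2
  have h4 : 2 ^ D.n * D.tot = 2 ^ D.s * (∑ u : D.V × D.V,
        if D.β u.1 u.2 - D.β u.2 u.1 = 0 then 1 else 0 : ℕ) := by exact_mod_cast h2
  rw [mul_assoc, ← h4] at h1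
  have h5 : (2 ^ D.n * 2 ^ D.s) * D.tot = (2 ^ D.n * 2 ^ D.s) * Nat.card (ConjClasses D.Grp) := by
    linarith
  exact (Nat.eq_of_mul_eq_mul_left (by positivity) h5).symm

end Dat

/-- Bool to field -/
def tf (b : Bool) : F := if b then 1 else 0

/-- a datum with an interface -/
structure Sys extends Dat where
  y : V → F × F
  y1 : ∀ a b, y (a + b) = y a + y b

/-- interface counting function -/
noncomputable def Sys.cnt (S : Sys) (a η : F × F) : ℕ :=
  ∑ l : S.L, ∑ v : S.V,
    ind (S.y v = a ∧ ∀ w, S.toDat.B l v w = η.1 * (S.y w).1 + η.2 * (S.y w).2)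

/-- the state function f is realised at size m -/
def Reach (m : ℕ) (f : Bool → Bool → Bool → Bool → ℕ) : Prop :=
  ∃ S : Sys, S.n + S.s = m ∧ ∀ a b c d, S.cnt (tf a, tf b) (tf c, tf d) = f a b c d

/-- the trivial system -/
def triv : Sys where
  V := F × F
  L := PUnit
  Z := PUnit
  β _ _ := 0
  p _ _ := 0
  β1 := by simp
  β2 := by simp
  p1 := by simp
  p2 := by simp
  nd := by simp
  n := 2
  s := 0
  cV := by simp
  cL := by simp
  cZ := by simp
  y v := v
  y1 _ _ := rfl

/-- the state with weights x, u1, u2, u3 -/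
def st (x u1 u2 u3 : ℕ) (a b c d : Bool) : ℕ :=
  (if !c && !d then x else 0) + (if !b && !c then u1 else 0) + (if !a && !d then u2 else 0) +
    (if (a == b) && (c == d) then u3 else 0)

/-- reachable states -/
def R (m x u1 u2 u3 : ℕ) : Prop := Reach m (st x u1 u2 u3)

lemma R_triv : R 2 1 0 0 0 := by
  refine ⟨triv, rfl, fun a b c d => ?_⟩
  have : ∀ (a η : F × F) (v : F × F),
      (v = a ∧ ∀ w : F × F, (0 : F) = η.1 * w.1 + η.2 * w.2) ↔ (v = a ∧ η = 0) := by
    intro a η v
    refine and_congr_right fun _ => ⟨fun h => ?_, fun h w => by simp [h]⟩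
    have h1 := h (1, 0); have h2 := h (0, 1)
    simp only [mul_one, mul_zero, add_zero, zero_add] at h1 h2
    exact Prod.ext h1.symm h2.symm
  have e : triv.cnt (tf a, tf b) (tf c, tf d) = ∑ l : PUnit, ∑ v : F × F,
      if v = (tf a, tf b) ∧ ((tf c, tf d) : F × F) = 0 then 1 else 0 := by
    unfold Sys.cnt
    refine Finset.sum_congr rfl fun l _ => Finset.sum_congr rfl fun v _ => ?_
    exact (congrArg ind (propext (this _ (tf c, tf d) v))).trans (ind_eq _)
  rw [e]
  clear e
  revert a b c d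
  decide

lemma Reach.swap {m : ℕ} {f : Bool → Bool → Bool → Bool → ℕ} (h : Reach m f) :
    Reach m (fun a b c d => f b a d c) := by
  obtain ⟨S, hm, hS⟩ := h
  refine ⟨{ S with y := fun v => ((S.y v).2, (S.y v).1), y1 := fun a b => by simp [S.y1] }, hm,
    fun a b c d => ?_⟩
  beta_reduce
  rw [← hS]
  unfold Sys.cnt
  refine Finset.sum_congr rfl fun l _ => Finset.sum_congr rfl fun v _ => ?_
  congr 1
  simp only [Prod.ext_iff, add_comm, and_comm (a := (S.y v).1 = _)]

lemma Reach.shear {m : ℕ} {f : Bool → Bool → Bool → Bool → ℕ} (h : Reach m f) :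
    Reach m (fun a b c d => f a (xor a b) (xor c d) d) := by
  obtain ⟨S, hm, hS⟩ := h
  refine ⟨{ S with
    y := fun v => ((S.y v).1, (S.y v).1 + (S.y v).2)
    y1 := fun a b => by simp [S.y1]; ring }, hm, fun a b c d => ?_⟩
  beta_reduce
  rw [← hS]
  unfold Sys.cnt
  refine Finset.sum_congr rfl fun l _ => Finset.sum_congr rfl fun v _ => ?_
  congr 1
  have h1 : ∀ (s t : F) (a b : Bool), ((s, s + t) = (tf a, tf b)) =
      ((s, t) = (tf a, tf (xor a b))) := by decide
  have h2 : ∀ (s t : F) (c d : Bool), tf c * s + tf d * (s + t) = tf (xor c d) * s + tf d * t := by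
    decide
  simp only [h1, h2]

lemma R.s12 {m x a b c : ℕ} (h : R m x a b c) : R m x b a c := by
  have := Reach.swap h
  unfold R
  convert this using 1
  funext p q r s
  cases p <;> cases q <;> cases r <;> cases s <;> simp [st, add_comm, add_left_comm]

lemma R.s13 {m x a b c : ℕ} (h : R m x a b c) : R m x c b a := by
  have := Reach.shear h
  unfold R
  convert this using 1
  funext p q r s
  cases p <;> cases q <;> cases r <;> cases s <;> simp [st, add_comm, add_left_comm]

end Pool.Agent.Lib.MP_78c6b1_al.Two
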