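import Pool.Agent.Lib.MP_78c6b1_al.TwoGad

/-! Truth tables stored in big numbers. -/

set_option autoImplicit false
set_option linter.unusedSectionVars false

namespace Pool.Agent.Lib.MP_78c6b1_al.Two

open Finset

/-- t stores the table of g on range M with lanes of width w -/
def Rep (w M t : ℕ) (g : ℕ → Bool) : Prop :=
  ∀ p, t.testBit p = (decide (p % w = 0) && decide (p / w < M) && g (p / w))

variable {w M t t' : ℕ} {g g' : ℕ → Bool}

lemma Rep.congr (h : Rep w M t g) (e : ∀ i < M, g i = g' i) : Rep w M t g' := by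
  intro p
  rw [h p]
  by_cases hp : p / w < M
  · rw [e _ hp]
  · simp [hp]

lemma Rep.xor (h : Rep w M t g) (h' : Rep w M t' g') :
    Rep w M (Nat.xor t t') (fun i => xor (g i) (g' i)) := by
  intro p
  have : (Nat.xor t t').testBit p = _ := Nat.testBit_xor t t' p
  rw [this, h p, h' p]
  cases decide (p % w = 0) <;> cases decide (p / w < M) <;> simp

lemma Rep.and (h : Rep w M t g) (h' : Rep w M t' g') :
    Rep w M (Nat.land t t') (fun i => g i && g' i) := by
  intro p
  have : (Nat.land t t').testBit p = _ := Nat.testBit_and t t' p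
  rw [this, h p, h' p]
  cases decide (p % w = 0) <;> cases decide (p / w < M) <;> simp

lemma Rep.zero : Rep w M 0 (fun _ => false) := by intro p; simp

lemma Rep.dbl (hw : 0 < w) (h : Rep w M t g) (h' : Rep w M t' g') :
    Rep w (M + M) (Nat.lor t (Nat.shiftLeft t' (w * M)))
      (fun i => if i < M then g i else g' (i - M)) := by
  intro p
  have e1 : (Nat.lor t (Nat.shiftLeft t' (w * M))).testBit p = _ := Nat.testBit_or _ _ p
  have e2 : (Nat.shiftLeft t' (w * M)).testBit p = _ := Nat.testBit_shiftLeft t'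
  rw [e1, e2, h p, h']
  by_cases hp : p / w < M
  · have : ¬ p ≥ w * M := by
      rw [Nat.div_lt_iff_lt_mul hw, mul_comm] at hp; omega
    simp [hp, this, show p / w < M + M by omega]
  · have hge : p ≥ w * M := by
      rw [Nat.div_lt_iff_lt_mul hw, mul_comm] at hp; omega
    have a1 : (p - w * M) % w = p % w := by
      obtain ⟨q, rfl⟩ := Nat.exists_eq_add_of_le hge
      simp
    have a2 : (p - w * M) / w = p / w - M := by
      obtain ⟨q, rfl⟩ := Nat.exists_eq_add_of_le hge
      rw [Nat.add_sub_cancel_left, Nat.mul_add_div hw]; simp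
    rw [a1, a2]
    have : (p / w - M < M) ↔ (p / w < M + M) := by omega
    simp [hp, hge, this]

lemma rep_sum (hw : 0 < w) (g : ℕ → Bool) (M : ℕ) :
    (∑ i ∈ range M, if g i then 2 ^ (w * i) else 0) < 2 ^ (w * M) ∧
      Rep w M (∑ i ∈ range M, if g i then 2 ^ (w * i) else 0) g := by
  induction M with
  | zero => exact ⟨by simp, fun p => by simp⟩
  | succ M ih =>
    obtain ⟨h1, h2⟩ := ih
    have e : (∑ i ∈ range (M + 1), if g i then 2 ^ (w * i) else 0) =
        2 ^ (w * M) * (if g M then 1 else 0) + ∑ i ∈ range M, if g i then 2 ^ (w * i) else 0 := by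
      rw [Finset.sum_range_succ]; split_ifs <;> ring
    rw [e]
    constructor
    · have : 2 ^ (w * M) * 2 ≤ 2 ^ (w * (M + 1)) := by
        rw [← pow_succ]; exact Nat.pow_le_pow_right (by norm_num) (by nlinarith)
      split_ifs <;> omega
    · intro p
      rw [Nat.testBit_two_pow_mul_add _ h1, h2 p]
      split_ifs with hp hg
      · have : p / w < M := by rw [Nat.div_lt_iff_lt_mul hw, mul_comm]; omega
        simp [this, show p / w < M + 1 by omega]
      · obtain ⟨q, rfl⟩ := Nat.exists_eq_add_of_le (not_lt.1 hp)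
        rw [Nat.add_sub_cancel_left, Nat.mul_add_div hw, Nat.mul_add_mod, Bool.eq_iff_iff,
          Nat.testBit_one_eq_true_iff_self_eq_zero]
        simp only [Bool.and_eq_true, decide_eq_true_eq]
        constructor
        · rintro rfl
          simp [hg]
        · rintro ⟨⟨a1, a2⟩, -⟩
          have a3 : q / w = 0 := by
            generalize q / w = z at a2; omega
          have := Nat.div_add_mod q w
          rw [a1, a3] at this
          omega
      · obtain ⟨q, rfl⟩ := Nat.exists_eq_add_of_le (not_lt.1 hp)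
        rw [Nat.add_sub_cancel_left, Nat.mul_add_div hw, Nat.mul_add_mod]
        by_cases hq : q / w = 0
        · simp [hq, hg]
        · simp [hq]

lemma Rep.count {K : ℕ} (hK : 0 < K) (h : Rep (K + 1) (2 ^ K) t g) :
    Nat.mod t (2 ^ (K + 1) - 1) = ∑ i ∈ range (2 ^ K), if g i then 1 else 0 := by
  have h2 := (rep_sum (w := K + 1) (by omega) g (2 ^ K)).2
  have e : t = _ := Nat.eq_of_testBit_eq fun p => (h p).trans (h2 p).symm
  have hb : (∑ i ∈ range (2 ^ K), if g i then 1 else 0) ≤ 2 ^ K := by
    calc _ ≤ ∑ i ∈ range (2 ^ K), 1 := Finset.sum_le_sum fun i _ => by split_ifs <;> omega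
      _ = _ := by simp
  have h3 : 2 ≤ 2 ^ K := by
    calc 2 = 2 ^ 1 := rfl
      _ ≤ _ := Nat.pow_le_pow_right (by norm_num) hK
  have hlt : (∑ i ∈ range (2 ^ K), if g i then 1 else 0) < 2 ^ (K + 1) - 1 := by
    rw [pow_succ]; omega
  show t % _ = _
  rw [← Nat.mod_eq_of_lt hlt, e]
  have h1 : 2 ^ (K + 1) ≡ 1 [MOD 2 ^ (K + 1) - 1] :=
    ((Nat.modEq_iff_dvd' (Nat.one_le_two_pow)).2 dvd_rfl).symm
  refine Nat.ModEq.sum fun i _ => ?_
  split_ifs
  · rw [pow_mul]; simpa using h1.pow i
  · rfl

/-- table of the constant true -/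
noncomputable def ones (w k : ℕ) : ℕ :=
  Nat.rec 1 (fun k o => Nat.lor o (Nat.shiftLeft o (Nat.mul w (Nat.pow 2 k)))) k

/-- table of the bit v -/
noncomputable def var (w v k : ℕ) : ℕ :=
  Nat.rec 0 (fun k t => cond (Nat.beq k v) (Nat.shiftLeft (ones w k) (Nat.mul w (Nat.pow 2 k)))
    (Nat.lor t (Nat.shiftLeft t (Nat.mul w (Nat.pow 2 k))))) k

lemma rep_ones (hw : 0 < w) (k : ℕ) : Rep w (2 ^ k) (ones w k) (fun _ => true) := by
  induction k with
  | zero =>
    intro p
    show Nat.testBit 1 p = _
    rw [Bool.eq_iff_iff, Nat.testBit_one_eq_true_iff_self_eq_zero]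
    simp only [Bool.and_eq_true, decide_eq_true_eq]
    constructor
    · rintro rfl; simp
    · rintro ⟨⟨a1, a2⟩, -⟩
      have a3 : p / w = 0 := by simpa using a2
      have := Nat.div_add_mod p w
      rw [a1, a3] at this
      omega
  | succ k ih =>
    rw [pow_succ, mul_two]
    exact (ih.dbl hw ih).congr fun i _ => by simp

lemma rep_var (hw : 0 < w) (v k : ℕ) : Rep w (2 ^ k) (var w v k) (fun i => i.testBit v) := by
  induction k with
  | zero =>
    refine (Rep.zero (w := w)).congr fun i hi => ?_
    have : i = 0 := by simpa using hi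
    simp [this]
  | succ k ih =>
    rw [pow_succ, mul_two]
    by_cases hv : k = v
    · subst hv
      have e : var w k (k + 1) = Nat.lor 0 (Nat.shiftLeft (ones w k) (w * 2 ^ k)) := by
        show cond (Nat.beq k k) _ _ = 0 ||| _
        rw [Nat.beq_refl, Nat.zero_or]; rfl
      rw [e]
      refine ((Rep.zero (w := w)).dbl hw (rep_ones hw k)).congr fun i hi => ?_
      split_ifs with h
      · exact (Nat.testBit_lt_two_pow h).symm
      · obtain ⟨q, rfl⟩ := Nat.exists_eq_add_of_le (not_lt.1 h)
        rw [Nat.testBit_two_pow_add_eq, Nat.testBit_lt_two_pow (by omega)]; rfl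
    · have e : var w v (k + 1) = Nat.lor (var w v k) (Nat.shiftLeft (var w v k) (w * 2 ^ k)) := by
        show cond (Nat.beq k v) _ _ = _
        have hb : Nat.beq k v = false := by
          cases hb : Nat.beq k v
          · rfl
          · exact absurd (Nat.eq_of_beq_eq_true hb) hv
        rw [hb]; rfl
      rw [e]
      refine (ih.dbl hw ih).congr fun i hi => ?_
      split_ifs with h
      · rfl
      · obtain ⟨q, rfl⟩ := Nat.exists_eq_add_of_le (not_lt.1 h)
        rw [Nat.add_sub_cancel_left]
        rcases lt_or_gt_of_ne hv with h1 | h1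
        · rw [Nat.testBit_lt_two_pow, Nat.testBit_lt_two_pow]
          · calc 2 ^ k + q < 2 ^ (k + 1) := by rw [pow_succ]; omega
              _ ≤ _ := Nat.pow_le_pow_right (by norm_num) h1
          · calc q < 2 ^ (k + 1) := by rw [pow_succ]; omega
              _ ≤ _ := Nat.pow_le_pow_right (by norm_num) h1
        · exact (Nat.testBit_two_pow_add_gt h1 q).symm

section Eval

variable (n s code : ℕ)

/-- coefficients read from a code -/
noncomputable def ub (n code j p q : ℕ) : Bool :=
  cond (Nat.ble (Nat.succ p) q) (Nat.beq (Nat.land (Nat.shiftRight code (Nat.add (Nat.add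
    (Nat.mul j (Nat.div (Nat.mul (Nat.add n 2) (Nat.add n 1)) 2))
    (Nat.div (Nat.mul q (Nat.pred q)) 2)) p)) 1) 1) false

/-- variable table -/
noncomputable def vt (v : ℕ) : ℕ := var (Nat.add (Nat.add n 3) s) v (Nat.add (Nat.add n 2) s)

/-- all ones table -/
noncomputable def ot : ℕ := ones (Nat.add (Nat.add n 3) s) (Nat.add (Nat.add n 2) s)

/-- inner sum table -/
noncomputable def it (j q k : ℕ) : ℕ :=
  Nat.rec 0 (fun p acc => cond (xor (ub n code j p q) (ub n code j q p))
    (Nat.xor acc (vt n s p)) acc) k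

/-- row table -/
noncomputable def rt' (q k : ℕ) : ℕ :=
  Nat.rec 0 (fun j acc => Nat.xor acc (Nat.land (vt n s (Nat.add (Nat.add n 2) j))
    (it n s code j q (Nat.add n 2)))) k

/-- row table -/
noncomputable def rt (q : ℕ) : ℕ := rt' n s code q s

/-- literal selection -/
noncomputable def sel (b : Bool) (t : ℕ) : ℕ := cond b t (Nat.xor (ot n s) t)

/-- vanishing of the internal rows -/
noncomputable def zt (k : ℕ) : ℕ :=
  Nat.rec (ot n s) (fun k acc => Nat.land acc (sel n s false (rt n s code (Nat.add k 2)))) k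

/-- input masks -/
noncomputable def pt (e : ℕ) : ℕ :=
  cond (Nat.beq e 0) (Nat.land (sel n s false (rt n s code 0)) (sel n s false (rt n s code 1)))
  (cond (Nat.beq e 1) (Nat.land (sel n s false (vt n s 1)) (sel n s false (rt n s code 0)))
  (cond (Nat.beq e 2) (Nat.land (sel n s false (vt n s 0)) (sel n s false (rt n s code 1)))
    (Nat.land (sel n s false (Nat.xor (vt n s 0) (vt n s 1)))
      (sel n s false (Nat.xor (rt n s code 0) (rt n s code 1))))))

/-- output masks -/
noncomputable def qt (a b c d : Bool) : ℕ :=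
  Nat.land (Nat.land (Nat.land (zt n s code (Nat.sub n 2)) (sel n s c (rt n s code n)))
    (sel n s d (rt n s code (Nat.add n 1))))
    (Nat.land (sel n s a (vt n s n)) (sel n s b (vt n s (Nat.add n 1))))

/-- population count -/
noncomputable def pc (t : ℕ) : ℕ := Nat.mod t (Nat.sub (Nat.pow 2 (Nat.add (Nat.add n 3) s)) 1)

/-- transfer counts -/
noncomputable def cv (e : ℕ) (a b c d : Bool) : ℕ :=
  pc n s (Nat.land (pt n s code e) (qt n s code a b c d))

/-- closing counts -/
noncomputable def cl (e : ℕ) : ℕ := pc n s (Nat.land (pt n s code e) (zt n s code n))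

/-- abbreviation for the representation predicate -/
def Rp (t : ℕ) (g : ℕ → Bool) : Prop := Rep (n + 2 + s + 1) (2 ^ (n + 2 + s)) t g

lemma rp_vt (v : ℕ) : Rp n s (vt n s v) (fun i => i.testBit v) := by
  have := rep_var (w := n + 2 + s + 1) (by omega) v (n + 2 + s)
  have e : n + 2 + s + 1 = Nat.add (Nat.add n 3) s := by simp; omega
  unfold Rp vt
  rw [← e]; exact this

lemma rp_ot : Rp n s (ot n s) (fun _ => true) := by
  have := rep_ones (w := n + 2 + s + 1) (by omega) (n + 2 + s)
  have e : n + 2 + s + 1 = Nat.add (Nat.add n 3) s := by simp; omega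
  unfold Rp ot
  rw [← e]; exact this

lemma rp_it (j q k : ℕ) : Rp n s (it n s code j q k)
    (fun i => xf (fun p => xor (ub n code j p q) (ub n code j q p) && i.testBit p) k) := by
  induction k with
  | zero => exact Rep.zero
  | succ k ih =>
    show Rp n s (cond (xor (ub n code j k q) (ub n code j q k)) (Nat.xor (it n s code j q k)
      (vt n s k)) (it n s code j q k)) _
    simp only [xf]
    cases xor (ub n code j k q) (ub n code j q k)
    · exact Rep.congr ih fun i _ => by simp
    · exact Rep.congr (Rep.xor ih (rp_vt n s k)) fun i _ => by simp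

lemma rp_rt (q : ℕ) : Rp n s (rt n s code q) (rb n s (ub n code) q) := by
  have : ∀ k, Rp n s (rt' n s code q k) (fun i => xf (fun j => i.testBit (n + 2 + j) &&
      xf (fun p => xor (ub n code j p q) (ub n code j q p) && i.testBit p) (n + 2)) k) := by
    intro k
    induction k with
    | zero => exact Rep.zero
    | succ k ih => exact Rep.xor ih (Rep.and (rp_vt n s _) (rp_it n s code k q _))
  exact this s

lemma rp_sel {t : ℕ} {g : ℕ → Bool} (b : Bool) (h : Rp n s t g) :
    Rp n s (sel n s b t) (fun i => g i == b) := by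
  cases b
  · exact Rep.congr (Rep.xor (rp_ot n s) h) fun i _ => by simp
  · exact Rep.congr h fun i _ => by simp

lemma rp_zt (k : ℕ) : Rp n s (zt n s code k)
    (fun i => decide (∀ j < k, rb n s (ub n code) (j + 2) i = false)) := by
  induction k with
  | zero => exact Rep.congr (rp_ot n s) fun i _ => by simp
  | succ k ih =>
    refine Rep.congr (Rep.and ih (rp_sel n s false (rp_rt n s code (k + 2)))) fun i _ => ?_
    rw [Bool.eq_iff_iff]
    simp only [Nat.forall_lt_succ_right, Bool.and_eq_true, decide_eq_true_eq, beq_iff_eq]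

/-- the four basic inputs -/
def pb (e : ℕ) (a b c d : Bool) : Bool :=
  if e = 0 then !c && !d else if e = 1 then !b && !c else if e = 2 then !a && !d
    else (a == b) && (c == d)

lemma rp_pt (e : ℕ) (he : e < 4) : Rp n s (pt n s code e) (fun i => pb e (i.testBit 0) (i.testBit 1)
    (rb n s (ub n code) 0 i) (rb n s (ub n code) 1 i)) := by
  interval_cases e
  · exact Rep.congr (Rep.and (rp_sel n s false (rp_rt n s code 0))
      (rp_sel n s false (rp_rt n s code 1))) fun i _ => by simp [pb]
  · exact Rep.congr (Rep.and (rp_sel n s false (rp_vt n s 1))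
      (rp_sel n s false (rp_rt n s code 0))) fun i _ => by simp [pb]
  · exact Rep.congr (Rep.and (rp_sel n s false (rp_vt n s 0))
      (rp_sel n s false (rp_rt n s code 1))) fun i _ => by simp [pb]
  · refine Rep.congr (Rep.and (rp_sel n s false (Rep.xor (rp_vt n s 0) (rp_vt n s 1)))
      (rp_sel n s false (Rep.xor (rp_rt n s code 0) (rp_rt n s code 1)))) fun i _ => ?_
    simp only [pb]
    generalize i.testBit 0 = a, i.testBit 1 = b, rb n s (ub n code) 0 i = c,
      rb n s (ub n code) 1 i = d
    revert a b c d; decide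

lemma pc_eq {t : ℕ} {g : ℕ → Bool} (h : Rp n s t g) :
    pc n s t = ∑ i ∈ range (2 ^ (n + 2 + s)), if g i then 1 else 0 := by
  have e : n + 2 + s + 1 = Nat.add (Nat.add n 3) s := by simp; omega
  unfold pc
  rw [← e]
  exact Rep.count (by omega) h

lemma st_eq (x u1 u2 u3 : ℕ) (a b c d z : Bool) (P : Prop) (hz : P ↔ z = true) :
    ind P * st x u1 u2 u3 a b c d = x * (if pb 0 a b c d && z then 1 else 0) +
      u1 * (if pb 1 a b c d && z then 1 else 0) + u2 * (if pb 2 a b c d && z then 1 else 0) +
      u3 * (if pb 3 a b c d && z then 1 else 0) := by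
  rw [propext hz, ind_eq]
  cases a <;> cases b <;> cases c <;> cases d <;> cases z <;> simp [st, pb]

theorem R.step {M x u1 u2 u3 : ℕ} (h : R M x u1 u2 u3) (hn : 2 ≤ n) :
    Reach (M + (n + s)) (fun a b c d => x * cv n s code 0 a b c d + u1 * cv n s code 1 a b c d +
      u2 * cv n s code 2 a b c d + u3 * cv n s code 3 a b c d) := by
  obtain ⟨m, rfl⟩ := Nat.exists_eq_add_of_le' hn
  have := Reach.step s (ub (m + 2) code) h m
  convert this using 1
  funext a b c d
  have hq : Rp (m + 2) s (qt (m + 2) s code a b c d) _ :=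
    Rep.and (Rep.and (Rep.and (rp_zt (m + 2) s code m)
      (rp_sel _ s c (rp_rt (m + 2) s code (m + 2)))) (rp_sel _ s d (rp_rt (m + 2) s code (m + 3))))
      (Rep.and (rp_sel _ s a (rp_vt (m + 2) s (m + 2))) (rp_sel _ s b (rp_vt (m + 2) s (m + 3))))
  unfold cv
  rw [pc_eq _ _ (Rep.and (rp_pt _ s code 0 (by omega)) hq),
    pc_eq _ _ (Rep.and (rp_pt _ s code 1 (by omega)) hq),
    pc_eq _ _ (Rep.and (rp_pt _ s code 2 (by omega)) hq),
    pc_eq _ _ (Rep.and (rp_pt _ s code 3 (by omega)) hq)]
  simp only [Finset.mul_sum, ← Finset.sum_add_distrib]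
  refine Finset.sum_congr rfl fun i _ => (st_eq _ _ _ _ _ _ _ _ _ _ ?_).symm
  simp only [Bool.and_eq_true, decide_eq_true_eq, beq_iff_eq]
  tauto

theorem R.close {M x u1 u2 u3 : ℕ} (h : R M x u1 u2 u3) (a : ℕ)
    (hk : x * cl n s code 0 + u1 * cl n s code 1 + u2 * cl n s code 2 + u3 * cl n s code 3 =
      3 * ((M + (n + s)) / 2) + 2 ^ ((M + (n + s)) % 2) + 3 * a) : Att a := by
  refine Reach.close n s (ub n code) h a ?_
  rw [← hk]
  have hq := rp_zt n s code n
  unfold cl
  rw [pc_eq _ _ (Rep.and (rp_pt _ s code 0 (by omega)) hq),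
    pc_eq _ _ (Rep.and (rp_pt _ s code 1 (by omega)) hq),
    pc_eq _ _ (Rep.and (rp_pt _ s code 2 (by omega)) hq),
    pc_eq _ _ (Rep.and (rp_pt _ s code 3 (by omega)) hq)]
  simp only [Finset.mul_sum, ← Finset.sum_add_distrib]
  refine Finset.sum_congr rfl fun i _ => st_eq _ _ _ _ _ _ _ _ _ _ ?_
  simp

end Eval

end Pool.Agent.Lib.MP_78c6b1_al.Two
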